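import Mathlib

/-!
# The bidirectional 3-neighbour graph on the square lattice (helper975): definitions
-/

set_option autoImplicit false

namespace Pool.Agent.R975.BN3

open MeasureTheory

/-- the four unit vectors of `ℤ²`: the nearest neighbours of `x` are the points `x + dir d` -/
def dir : Fin 4 → ℤ × ℤ := ![(1, 0), (0, 1), (-1, 0), (0, -1)]

/-- the sets of exactly three of the four directions -/
abbrev Choice := {A : Finset (Fin 4) // A.card = 3}

instance : Nonempty Choice := ⟨⟨{0, 1, 2}, rfl⟩⟩

instance : MeasurableSpace Choice := ⊤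

instance : DiscreteMeasurableSpace Choice := ⟨fun _ => trivial⟩

/-- the law of the model: independently for every vertex a uniformly random set of exactly three
of the four directions -/
noncomputable def law : Measure (ℤ × ℤ → Choice) :=
  Measure.infinitePi (fun _ => (PMF.uniformOfFintype Choice).toMeasure)

/-- the set `S(x)` of the three nearest neighbours chosen by `x` -/
def Sx (ω : ℤ × ℤ → Choice) (x : ℤ × ℤ) : Set (ℤ × ℤ) := {y | ∃ d ∈ (ω x).1, y = x + dir d}

theorem not_mem_Sx (ω : ℤ × ℤ → Choice) (x : ℤ × ℤ) : x ∉ Sx ω x := by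
  rintro ⟨d, -, h⟩
  have h1 : dir d = 0 := by
    have : x + 0 = x + dir d := by rw [add_zero]; exact h
    exact (add_left_cancel this).symm
  have key : ∀ d : Fin 4, dir d ≠ 0 := by decide
  exact key d h1

/-- the bidirectional 3-neighbour graph: `x` and `y` are joined when `y ∈ S(x)` and `x ∈ S(y)` -/
def bng (ω : ℤ × ℤ → Choice) : SimpleGraph (ℤ × ℤ) where
  Adj x y := y ∈ Sx ω x ∧ x ∈ Sx ω y
  symm := ⟨fun _ _ h => ⟨h.2, h.1⟩⟩
  loopless := ⟨fun x h => not_mem_Sx ω x h.1⟩

/-- the event that the connected component of the origin is infinite -/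
def perc : Set (ℤ × ℤ → Choice) := {ω | {y | (bng ω).Reachable (0, 0) y}.Infinite}

/-- the percolation probability of the bidirectional 3-neighbour graph on `ℤ²` -/
noncomputable def theta : ℝ := law.real perc

end Pool.Agent.R975.BN3
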