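import Pool.Agent.R975.BN.DCT
import Pool.Agent.R975.BN.Model

/-!
# The 3-neighbour graph on the square lattice percolates (helper975): infinite volume
-/

set_option autoImplicit false

namespace Pool.Agent.R975.BN

open MeasureTheory ProbabilityTheory
open Finset H974
open Pool.Agent.R975.BN3 (Choice law bng perc theta Sx dir)

/-- the configuration -/
def cfg (ω : V → Choice) : Cfg := fun v => (ω v).1

/-- the configuration inside `L`, and `η` outside -/
def asmC (L : List V) (ω : V → Choice) (η : Cfg) : Cfg := fun v => if v ∈ L then (ω v).1 else η v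

instance : IsProbabilityMeasure law := by
  unfold BN3.law
  infer_instance

theorem card_choice : Fintype.card Choice = 4 := by decide

theorem muO_card (s : St) : muO s = if s.card = 3 then 1 / 4 else 0 := by
  have h1 : ∀ s : Finset (Fin 4), (univ.filter (fun d => s = univ.erase d)).card
      = if s.card = 3 then 1 else 0 := by decide
  unfold muO
  rw [← Finset.sum_filter, Finset.sum_const, h1 s]
  split_ifs <;> simp

theorem sum_choice (F : St → ℝ) : ∑ c : Choice, 1 / 4 * F c.1 = ∑ s, muO s * F s := by
  have h1 : ∀ s : St, muO s * F s = if s.card = 3 then 1 / 4 * F s else 0 := by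
    intro s
    rw [muO_card]
    split_ifs <;> simp
  rw [Finset.sum_congr rfl (fun s _ => h1 s), ← Finset.sum_filter]
  symm
  apply Finset.sum_subtype
  intro s
  simp

theorem law_single (v : V) (c : Choice) : law.real {ω | ω v = c} = 1 / 4 := by
  have h1 : {ω : V → Choice | ω v = c} = Set.pi (↑({v} : Finset V)) (fun _ => {c}) := by
    ext ω
    simp
  rw [measureReal_def, h1]
  unfold BN3.law
  rw [Measure.infinitePi_pi _ (fun _ _ => MeasurableSet.of_discrete), Finset.prod_singleton,
    PMF.toMeasure_apply_singleton _ _ MeasurableSet.of_discrete, PMF.uniformOfFintype_apply,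
    card_choice]
  simp

theorem meas_asm (L : List V) (η : Cfg) (Q : Cfg → Prop) :
    ∃ t : Set ((i : L.toFinset) → Choice), MeasurableSet t ∧
      {ω : V → Choice | Q (asmC L ω η)} = (fun ω (i : L.toFinset) => ω i) ⁻¹' t := by
  refine ⟨{h | Q (fun v => if hv : v ∈ L.toFinset then (h ⟨v, hv⟩).1 else η v)},
    (Set.toFinite _).measurableSet, ?_⟩
  ext ω
  rw [Set.mem_preimage, Set.mem_ofPred_eq, Set.mem_ofPred_eq]
  have : asmC L ω η = (fun v => if hv : v ∈ L.toFinset then (ω v).1 else η v) := by
    funext v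
    unfold asmC
    by_cases hv : v ∈ L
    · rw [if_pos hv, dif_pos (List.mem_toFinset.2 hv)]
    · rw [if_neg hv, dif_neg (fun h => hv (List.mem_toFinset.1 h))]
  rw [this]

theorem meas_event (L : List V) (η : Cfg) (Q : Cfg → Prop) :
    MeasurableSet {ω : V → Choice | Q (asmC L ω η)} := by
  obtain ⟨t, ht, h⟩ := meas_asm L η Q
  rw [h]
  exact (measurable_pi_lambda _ (fun i => measurable_pi_apply _)) ht

theorem law_indep {v : V} {L : List V} (hv : v ∉ L) (c : Choice) (η : Cfg) (Q : Cfg → Prop) :
    law.real ({ω | ω v = c} ∩ {ω | Q (asmC L ω η)})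
      = law.real {ω | ω v = c} * law.real {ω | Q (asmC L ω η)} := by
  have hind : iIndepFun (fun (i : V) (ω : V → Choice) => ω i) law := by
    unfold BN3.law
    exact iIndepFun_infinitePi (P := fun _ : V => (PMF.uniformOfFintype Choice).toMeasure)
      (X := fun _ c => c) (fun _ => measurable_id)
  have h2 := hind.indepFun_finset {v} L.toFinset (by
    rw [Finset.disjoint_singleton_left, List.mem_toFinset]
    exact hv) (fun i => measurable_pi_apply i)
  obtain ⟨t, ht, h3⟩ := meas_asm L η Q
  have h4 : {ω : V → Choice | ω v = c} = (fun ω (i : ({v} : Finset V)) => ω i) ⁻¹'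
      {h | h ⟨v, Finset.mem_singleton_self v⟩ = c} := rfl
  have h5 := h2.measure_inter_preimage_eq_mul {h | h ⟨v, Finset.mem_singleton_self v⟩ = c} t
    ((Set.toFinite _).measurableSet) ht
  rw [measureReal_def, measureReal_def, measureReal_def, h3, h4, h5, ENNReal.toReal_mul]

theorem law_event (L : List V) (Q : Cfg → Prop) : L.Nodup → ∀ η : Cfg,
    law.real {ω | Q (asmC L ω η)} = EL (fun _ => muO) L (fun η => ind (Q η)) η := by
  induction L with
  | nil =>
    intro _ η
    have h1 : ∀ ω : V → Choice, asmC [] ω η = η := by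
      intro ω
      funext v
      simp [asmC]
    show _ = ind (Q η)
    by_cases hQ : Q η
    · have h2 : {ω : V → Choice | Q (asmC [] ω η)} = Set.univ := by
        ext ω
        simp [h1, hQ]
      rw [h2, ind_of hQ]
      simp
    · have h2 : {ω : V → Choice | Q (asmC [] ω η)} = ∅ := by
        ext ω
        simp [h1, hQ]
      rw [h2, ind_not_of hQ]
      simp
  | cons v L ih =>
    intro hL η
    rw [List.nodup_cons] at hL
    have h1 : {ω : V → Choice | Q (asmC (v :: L) ω η)} = ⋃ c ∈ (Finset.univ : Finset Choice),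
        ({ω | ω v = c} ∩ {ω | Q (asmC L ω (Function.update η v c.1))}) := by
      ext ω
      have h2 : asmC (v :: L) ω η = asmC L ω (Function.update η v (ω v).1) := by
        funext w
        unfold asmC
        by_cases hwL : w ∈ L
        · rw [if_pos hwL, if_pos (List.mem_cons_of_mem _ hwL)]
        · rw [if_neg hwL]
          by_cases hwv : w = v
          · subst hwv
            rw [if_pos List.mem_cons_self, Function.update_self]
          · rw [Function.update_of_ne hwv, if_neg]
            rw [List.mem_cons, not_or]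
            exact ⟨hwv, hwL⟩
      simp only [Set.mem_iUnion, Set.mem_inter_iff, Set.mem_ofPred_eq, Finset.mem_univ, true_and,
        exists_prop]
      rw [h2]
      constructor
      · intro h
        exact ⟨ω v, rfl, h⟩
      · rintro ⟨c, rfl, h⟩
        exact h
    rw [h1, measureReal_biUnion_finset]
    · show _ = ∑ s, muO s * EL (fun _ => muO) L (fun η => ind (Q η)) (Function.update η v s)
      rw [← sum_choice]
      apply Finset.sum_congr rfl
      intro c _
      rw [law_indep hL.1, law_single, ih hL.2]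
    · intro c _ c' _ hne
      rw [Function.onFun, Set.disjoint_left]
      rintro ω ⟨h3, -⟩ ⟨h4, -⟩
      exact hne ((show ω v = c from h3).symm.trans (show ω v = c' from h4))
    · intro c _
      apply MeasurableSet.inter
      · have h5 : {ω : V → Choice | ω v = c} = (fun ω : V → Choice => ω v) ⁻¹' {c} := rfl
        rw [h5]
        exact (measurable_pi_apply v) MeasurableSet.of_discrete
      · exact meas_event L _ Q

theorem bng_adj (ω : V → Choice) (x y : V) : (bng ω).Adj x y ↔ SAdj (cfg ω) x y := by
  constructor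
  · rintro ⟨⟨d, hd, h1⟩, ⟨d', hd', h2⟩⟩
    have h1' : y = x + stp d := h1
    have h2' : x = y + stp d' := h2
    refine ⟨d, h1', hd, ?_⟩
    have h3 : stp d' = stp (d + 2) := by
      have h4 : y + stp d' = y + stp (d + 2) := by
        rw [← h2', h1', back]
      exact add_left_cancel h4
    rw [← stp_inj h3]
    exact hd'
  · rintro ⟨d, h1, h2, h3⟩
    refine ⟨⟨d, h2, h1⟩, ⟨d + 2, h3, ?_⟩⟩
    show x = y + stp (d + 2)
    rw [h1, back]

theorem reach_iff (ω : V → Choice) (x y : V) : (bng ω).Reachable x y ↔ Cn (cfg ω) Set.univ x y := by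
  rw [SimpleGraph.reachable_iff_reflTransGen]
  unfold Cn
  have h : (bng ω).Adj = (fun a b => a ∈ Set.univ ∧ b ∈ Set.univ ∧ SAdj (cfg ω) a b) := by
    funext a b
    apply propext
    rw [bng_adj]
    simp
  rw [h]

/-- the finite volume events -/
def En (n : ℕ) : Set (V → Choice) := {ω | Ev (box n) {0} (bnd n) (cfg ω)}

theorem ev_cfg (n : ℕ) (ω : V → Choice) :
    Ev (box n) {0} (bnd n) (cfg ω) ↔ Ev (box n) {0} (bnd n) (asmC (LL n) ω e0) := by
  have h : ∀ a ∈ (↑(box n) : Set V), cfg ω a = asmC (LL n) ω e0 a := by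
    intro a ha
    unfold cfg asmC LL
    rw [if_pos (by rw [Finset.mem_toList]; exact ha)]
  constructor
  · rintro ⟨a, ha, b, hb, hc⟩
    exact ⟨a, ha, b, hb, hc.congr h⟩
  · rintro ⟨a, ha, b, hb, hc⟩
    exact ⟨a, ha, b, hb, hc.congr (fun a ha => (h a ha).symm)⟩

theorem En_eq (n : ℕ) : En n = {ω | Ev (box n) {0} (bnd n) (asmC (LL n) ω e0)} := by
  ext ω
  exact ev_cfg n ω

theorem En_meas (n : ℕ) : MeasurableSet (En n) := by
  rw [En_eq]
  exact meas_event _ _ _

theorem En_law {n : ℕ} (hn : 1 ≤ n) : cst / 4 ≤ law.real (En n) := by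
  rw [En_eq, law_event (LL n) (fun η => Ev (box n) {0} (bnd n) η) (Finset.nodup_toList _)]
  exact omit_lower hn

/-- a path which leaves the box visits its boundary -/
theorem exits {n : ℕ} {η : Cfg} {y : V} (h : Cn η Set.univ 0 y) :
    (Cn η (box n) 0 y ∧ y ∈ box n) ∨ Ev (box n) {0} (bnd n) η := by
  induction h with
  | refl => exact Or.inl ⟨Cn.refl _ _ _, zero_box n⟩
  | @tail y z _ h2 ih =>
    rcases ih with ⟨h3, h4⟩ | h3
    · by_cases hb : y ∈ bnd n
      · exact Or.inr ⟨0, rfl, y, hb, h3⟩
      · left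
        have hz : z ∈ box n := by
          obtain ⟨d, h5, -, -⟩ := h2.2.2
          rw [h5]
          exact inner_step h4 hb d
        exact ⟨h3.trans (Cn.step h4 hz h2.2.2), hz⟩
    · exact Or.inr h3

theorem En_of_far {n : ℕ} {ω : V → Choice} {y : V} (h : Cn (cfg ω) Set.univ 0 y) (hy : y ∉ box n) :
    ω ∈ En n := by
  rcases exits (n := n) h with ⟨-, h1⟩ | h1
  · exact absurd h1 hy
  · exact h1

theorem En_anti {n m : ℕ} (h : n ≤ m) : En m ⊆ En n := by
  rintro ω ⟨a, ha, b, hb, hc⟩
  rw [Set.mem_singleton_iff] at ha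
  subst ha
  rcases Nat.eq_or_lt_of_le h with h1 | h1
  · subst h1
    exact ⟨0, rfl, b, hb, hc⟩
  · apply En_of_far (hc.mono (fun _ => subset_rfl) (Set.subset_univ _))
    intro hbn
    rw [mem_box] at hbn
    obtain ⟨-, hb2⟩ := hb
    have h2 : (n:ℤ) < m := by exact_mod_cast h1
    omega

theorem perc_eq : perc = ⋂ n, En n := by
  ext ω
  rw [Set.mem_iInter]
  show {y | (bng ω).Reachable (0, 0) y}.Infinite ↔ _
  constructor
  · intro h n
    obtain ⟨y, hy, hy'⟩ := h.exists_notMem_finite (box n).finite_toSet
    have h1 : Cn (cfg ω) Set.univ 0 y := (reach_iff ω _ _).1 hy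
    exact En_of_far h1 hy'
  · intro h hfin
    have hb : ((fun v : ℤ × ℤ => |v.1| + |v.2|) '' {y | (bng ω).Reachable (0, 0) y}).Finite :=
      hfin.image _
    obtain ⟨N, hN⟩ := hb.bddAbove
    obtain ⟨a, ha, v, hv, hr⟩ := h (N.toNat + 1)
    rw [Set.mem_singleton_iff] at ha
    subst ha
    have hmem : v ∈ {y | (bng ω).Reachable (0, 0) y} :=
      (reach_iff ω _ _).2 (hr.mono (fun _ => subset_rfl) (Set.subset_univ _))
    have h1 : |v.1| + |v.2| ≤ N := hN (Set.mem_image_of_mem _ hmem)
    have h2 := abs_nonneg v.1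
    have h3 := abs_nonneg v.2
    have h4 := le_abs_self v.1
    have h5 := le_abs_self v.2
    have h6 := neg_abs_le v.1
    have h7 := neg_abs_le v.2
    obtain ⟨-, hv⟩ := hv
    have h8 : N ≤ N.toNat := Int.self_le_toNat N
    push_cast at hv
    omega

theorem perc_meas : MeasurableSet perc := by
  rw [perc_eq]
  exact MeasurableSet.iInter En_meas

theorem theta_lower : cst / 4 ≤ theta := by
  unfold BN3.theta
  rw [perc_eq]
  have h1 : Filter.Tendsto (fun n => law (En (n + 1))) Filter.atTop
      (nhds (law (⋂ n, En (n + 1)))) := by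
    apply tendsto_measure_iInter_atTop
    · intro n
      exact (En_meas _).nullMeasurableSet
    · intro n m hnm
      exact En_anti (by omega)
    · exact ⟨0, measure_ne_top _ _⟩
  have h2 : Filter.Tendsto (fun n => law.real (En (n + 1))) Filter.atTop
      (nhds (law.real (⋂ n, En (n + 1)))) :=
    (ENNReal.tendsto_toReal (measure_ne_top _ _)).comp h1
  have h3 : (⋂ n, En (n + 1)) = ⋂ n, En n := by
    apply Set.Subset.antisymm
    · intro ω h
      rw [Set.mem_iInter] at h ⊢
      intro n
      exact En_anti (Nat.le_succ n) (h n)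
    · intro ω h
      rw [Set.mem_iInter] at h ⊢
      intro n
      exact h (n + 1)
  rw [h3] at h2
  exact ge_of_tendsto' h2 (fun n => En_law (by omega))

theorem theta_ge : (1 / 2 : ℝ) ^ 40 ≤ theta := by
  refine le_trans ?_ theta_lower
  unfold cst
  norm_num

end Pool.Agent.R975.BN
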