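import Pool.Agent.R975.BN.Conn
import Pool.Agent.H974R2.Arm
import Pool.Agent.H974R2.BK

/-!
# The 3-neighbour graph on the square lattice percolates (helper975): bond percolation at `1/2`

For bond percolation with parameter `1/2` the sum of the probabilities of the connections from the
origin to the boundary of a finite set `S`, inside `S`, is at least `1`.
-/

set_option autoImplicit false

namespace Pool.Agent.R975.BN

open Finset H974

/-- the edges inside `S` -/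
noncomputable def EF (S : Finset V) : Finset Edg :=
  ((S ×ˢ (univ : Finset Bool)).image (fun p => (p.1.1, p.1.2, p.2))).filter (fun e => tgt e ∈ S)

theorem mem_EF {S : Finset V} {e : Edg} : e ∈ EF S ↔ src e ∈ S ∧ tgt e ∈ S := by
  unfold EF
  rw [Finset.mem_filter, Finset.mem_image]
  constructor
  · rintro ⟨⟨⟨v, b⟩, h1, rfl⟩, h2⟩
    rw [Finset.mem_product] at h1
    exact ⟨h1.1, h2⟩
  · rintro ⟨h1, h2⟩
    refine ⟨⟨(src e, e.2.2), ?_, rfl⟩, h2⟩
    rw [Finset.mem_product]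
    exact ⟨h1, Finset.mem_univ _⟩

/-- connection inside `S` from the origin -/
def CS (S : Finset V) (x : V) (F : Finset Edg) : Prop := Reach (↑F ∩ ↑(EF S)) 0 x

/-- the probability of a connection inside `S` -/
noncomputable def pS (S : Finset V) (x : V) : ℝ := Pr (fun _ => 1 / 2) (EF S) (CS S x)

/-- the directions leaving `S` -/
noncomputable def outd (S : Finset V) (x : V) : St := univ.filter (fun d => x + stp d ∉ S)

noncomputable def phi (S : Finset V) : ℝ := ∑ x ∈ S, ((outd S x).card : ℝ) * pS S x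

theorem okh : Ok (fun _ : Edg => (1 / 2 : ℝ)) := okq (by norm_num) (by norm_num)

theorem ind_ex_le {ι : Type*} (I : Finset ι) (A : ι → Prop) :
    ind (∃ i ∈ I, A i) ≤ ∑ i ∈ I, ind (A i) := by
  by_cases h : ∃ i ∈ I, A i
  · obtain ⟨i, hi, hA⟩ := h
    rw [ind_of ⟨i, hi, hA⟩, ← ind_of hA]
    exact Finset.single_le_sum (f := fun i => ind (A i)) (fun _ _ => ind_nonneg _) hi
  · rw [ind_not_of h]
    exact Finset.sum_nonneg (fun _ _ => ind_nonneg _)

theorem Pr_ex_le {E : Type*} [DecidableEq E] {p : E → ℝ} (hp : Ok p) (S : Finset E) {ι : Type*}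
    (I : Finset ι) (A : ι → Finset E → Prop) :
    Pr p S (fun F => ∃ i ∈ I, A i F) ≤ ∑ i ∈ I, Pr p S (A i) := by
  unfold Pr
  rw [← Ex_sum]
  apply Ex_mono hp
  intro F _
  exact ind_ex_le I (fun i => A i F)

theorem arm_lower (n : ℕ) : 1 / (2 * ((n:ℝ) + 1)) ≤ arm (1 / 2) (n + 1) := by
  have h1 := hh_half (n : ℤ) (by positivity)
  unfold hh at h1
  have h2 : Pr (fun _ => (1/2:ℝ)) (LRE 0 (n + 1) 0 n) (LRc 0 (n + 1) 0 n)
      ≤ ∑ j ∈ Finset.Icc (0:ℤ) n, Pr (fun _ => (1/2:ℝ)) (LRE 0 (n + 1) 0 n)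
        (fun F => ∃ u : Vtx, (u.1 ≤ ((0:ℤ), j).1 - ((n + 1 : ℕ) : ℤ) ∨
          ((0:ℤ), j).1 + ((n + 1 : ℕ) : ℤ) ≤ u.1 ∨ u.2 ≤ ((0:ℤ), j).2 - ((n + 1 : ℕ) : ℤ) ∨
          ((0:ℤ), j).2 + ((n + 1 : ℕ) : ℤ) ≤ u.2) ∧ Reach (↑F) ((0:ℤ), j) u) := by
    refine le_trans ?_ (Pr_ex_le okh _ _ _)
    apply Pr_mono okh
    rintro F _ ⟨y, y', h3, h4, h5⟩
    refine ⟨y, Finset.mem_Icc.2 h3, (n + 1, y'), ?_, h5.mono Set.inter_subset_left⟩
    right; left
    push_cast
    simp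
  have h3 : ∑ j ∈ Finset.Icc (0:ℤ) n, Pr (fun _ => (1/2:ℝ)) (LRE 0 (n + 1) 0 n)
        (fun F => ∃ u : Vtx, (u.1 ≤ ((0:ℤ), j).1 - ((n + 1 : ℕ) : ℤ) ∨
          ((0:ℤ), j).1 + ((n + 1 : ℕ) : ℤ) ≤ u.1 ∨ u.2 ≤ ((0:ℤ), j).2 - ((n + 1 : ℕ) : ℤ) ∨
          ((0:ℤ), j).2 + ((n + 1 : ℕ) : ℤ) ≤ u.2) ∧ Reach (↑F) ((0:ℤ), j) u)
      ≤ ∑ j ∈ Finset.Icc (0:ℤ) n, arm (1 / 2) (n + 1) :=
    Finset.sum_le_sum (fun j _ => arm_bound (by norm_num) (by norm_num) _ _ _)
  rw [Finset.sum_const, Int.card_Icc, nsmul_eq_mul] at h3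
  have h4 : (((n:ℤ) + 1 - 0).toNat : ℝ) = (n:ℝ) + 1 := by
    have : ((n:ℤ) + 1 - 0).toNat = n + 1 := by omega
    rw [this]
    push_cast
    ring
  rw [h4] at h3
  have h5 : (1:ℝ) / 2 ≤ ((n:ℝ) + 1) * arm (1 / 2) (n + 1) := by
    have h7 := h2.trans h3
    rw [h1] at h7
    exact h7
  have h6 : (0:ℝ) < (n:ℝ) + 1 := by positivity
  rw [div_le_iff₀ (by positivity)]
  nlinarith

/-- last exit from a set -/
theorem last_exit {G : Set Edg} {C : Set Vtx} {u v : Vtx} (h : Reach G u v) (hv : v ∉ C) :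
    (u ∈ C → ∃ x y, x ∈ C ∧ y ∉ C ∧ Adj G x y ∧
      Reach (G ∩ {e | src e ∉ C ∧ tgt e ∉ C}) y v) ∧
    (u ∉ C → (Reach (G ∩ {e | src e ∉ C ∧ tgt e ∉ C}) u v) ∨ ∃ x y, x ∈ C ∧ y ∉ C ∧ Adj G x y ∧
      Reach (G ∩ {e | src e ∉ C ∧ tgt e ∉ C}) y v) := by
  induction h using Relation.ReflTransGen.head_induction_on with
  | refl => exact ⟨fun h => absurd h hv, fun _ => Or.inl (Reach.refl _ _)⟩
  | @head a c hac _ ih =>
    constructor
    · intro ha
      by_cases hc : c ∈ C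
      · exact ih.1 hc
      · rcases ih.2 hc with h1 | h1
        · exact ⟨a, c, ha, hc, hac, h1⟩
        · exact h1
    · intro ha
      by_cases hc : c ∈ C
      · exact Or.inr (ih.1 hc)
      · rcases ih.2 hc with h1 | h1
        · left
          refine Reach.trans (Adj.reach ?_) h1
          obtain ⟨e, he, hcase⟩ := hac
          refine ⟨e, ⟨he, ?_⟩, hcase⟩
          rcases hcase with ⟨h2, h3⟩ | ⟨h2, h3⟩
          · exact ⟨h2 ▸ ha, h3 ▸ hc⟩
          · exact ⟨h2 ▸ hc, h3 ▸ ha⟩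
        · exact Or.inr h1

/-- the direction of an edge -/
def dirE (e : Edg) : Fin 4 := if e.2.2 then 0 else 1

theorem tgt_eq (e : Edg) : tgt e = src e + stp (dirE e) := by
  obtain ⟨x, y, _ | _⟩ := e
  · simp [dirE, stp, src, tgt]
  · simp [dirE, stp, src, tgt]

theorem adj_dir {G : Set Edg} {a b : Vtx} (h : Adj G a b) : ∃ d, b = a + stp d := by
  obtain ⟨e, -, ⟨h1, h2⟩ | ⟨h1, h2⟩⟩ := h
  · exact ⟨dirE e, by rw [← h1, ← h2, tgt_eq]⟩
  · refine ⟨dirE e + 2, ?_⟩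
    rw [← h1, ← h2, tgt_eq, back]

theorem simon {S : Finset V} {r : ℕ} (hS : S ⊆ box r) (h0 : (0:V) ∈ S) (n : ℕ) :
    arm (1 / 2) (n + (r + 1)) ≤ phi S * arm (1 / 2) n := by
  classical
  set m : ℕ := n + (r + 1) with hm
  have hEF : EF S ⊆ boxE m := by
    intro e he
    rw [mem_EF] at he
    have h1 := mem_box.1 (hS he.1)
    have h2 := mem_box.1 (hS he.2)
    obtain ⟨x, y, _ | _⟩ := e
    · unfold boxE
      rw [mem_RE_false]
      simp only [src, tgt, Bool.false_eq_true, if_false] at h1 h2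
      push_cast [hm]
      omega
    · unfold boxE
      rw [mem_RE_true]
      simp only [src, tgt, if_true] at h1 h2
      push_cast [hm]
      omega
  set BB : V → Finset Edg → Prop := fun y F => ∃ u : Vtx, (u.1 ≤ y.1 - (n:ℤ) ∨ y.1 + (n:ℤ) ≤ u.1 ∨
    u.2 ≤ y.2 - (n:ℤ) ∨ y.2 + (n:ℤ) ≤ u.2) ∧ Reach (↑F) y u with hBB
  have hinA : ∀ x, IncrE (boxE m) (CS S x) := by
    intro x F G hFG _ hF
    exact Reach.mono (Set.inter_subset_inter_left _ (by exact_mod_cast hFG)) hF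
  have hinB : ∀ y, IncrE (boxE m) (BB y) := by
    rintro y F G hFG _ ⟨u, h1, h2⟩
    exact ⟨u, h1, h2.mono (by exact_mod_cast hFG)⟩
  have hdec : ∀ F, F ⊆ boxE m → Arm m F → ∃ x ∈ S, ∃ d ∈ outd S x,
      DisjOcc (CS S x) (BB (x + stp d)) F := by
    rintro F - ⟨v, hv, hr⟩
    set C : Set Vtx := {u | Reach (↑F ∩ ↑(EF S)) 0 u} with hC
    have hCS : ∀ u ∈ C, u ∈ S := by
      intro u hu
      rcases Relation.ReflTransGen.cases_tail hu with h1 | ⟨w, -, e, he, hcase⟩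
      · rw [h1]; exact h0
      · have h2 := mem_EF.1 (Finset.mem_coe.1 he.2)
        rcases hcase with ⟨-, h3⟩ | ⟨h3, -⟩
        · rw [← h3]; exact h2.2
        · rw [← h3]; exact h2.1
    have hvC : v ∉ C := by
      intro h
      have h1 := mem_box.1 (hS (hCS v h))
      unfold onB at hv
      obtain ⟨-, hv⟩ := hv
      push_cast [hm] at hv
      omega
    obtain ⟨x, y, hx, hy, hxy, hyv⟩ := (last_exit hr hvC).1 (Reach.refl _ _)
    have hxS := hCS x hx
    have hyS : y ∉ S := by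
      intro hyS
      apply hy
      obtain ⟨e, he, hcase⟩ := hxy
      refine Reach.trans hx (Adj.reach ⟨e, ⟨he.1, ?_⟩, hcase⟩)
      rw [Finset.mem_coe, mem_EF]
      rcases hcase with ⟨h3, h4⟩ | ⟨h3, h4⟩
      · exact ⟨h3 ▸ hxS, h4 ▸ hyS⟩
      · exact ⟨h3 ▸ hyS, h4 ▸ hxS⟩
    obtain ⟨d, hd⟩ := adj_dir hxy
    refine ⟨x, hxS, d, ?_, ?_⟩
    · unfold outd
      rw [Finset.mem_filter]
      exact ⟨Finset.mem_univ _, hd ▸ hyS⟩
    rw [← hd]
    set K : Finset Edg := F.filter (fun e => src e ∈ C ∧ tgt e ∈ C) with hK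
    refine ⟨K, F \ K, Finset.filter_subset _ _, Finset.sdiff_subset, Finset.disjoint_sdiff, ?_, ?_⟩
    · -- the path inside the cluster
      have key : ∀ w, Reach (↑F ∩ ↑(EF S)) 0 w → Reach (↑K ∩ ↑(EF S)) 0 w := by
        intro w hw
        induction hw with
        | refl => exact Reach.refl _ _
        | @tail a c ha hac ih =>
          refine ih.trans (Adj.reach ?_)
          have haC : a ∈ C := ha
          have hcC : c ∈ C := Relation.ReflTransGen.tail ha hac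
          obtain ⟨e, he, hcase⟩ := hac
          refine ⟨e, ⟨?_, he.2⟩, hcase⟩
          rw [hK, Finset.mem_coe, Finset.mem_filter]
          refine ⟨he.1, ?_⟩
          rcases hcase with ⟨h3, h4⟩ | ⟨h3, h4⟩
          · exact ⟨h3 ▸ haC, h4 ▸ hcC⟩
          · exact ⟨h3 ▸ hcC, h4 ▸ haC⟩
      exact key x hx
    · refine ⟨v, ?_, hyv.mono ?_⟩
      · have h1 := mem_box.1 (hS hxS)
        have h2 := stp_abs d
        have h3 := abs_nonneg (stp d).1
        have h4 := abs_nonneg (stp d).2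
        have h5 := abs_le.1 (show |(stp d).1| ≤ 1 by omega)
        have h6 := abs_le.1 (show |(stp d).2| ≤ 1 by omega)
        have h7 : y.1 = x.1 + (stp d).1 := by rw [hd]; rfl
        have h8 : y.2 = x.2 + (stp d).2 := by rw [hd]; rfl
        unfold onB at hv
        obtain ⟨-, hv⟩ := hv
        push_cast [hm] at hv
        omega
      · rintro e ⟨⟨he1, -⟩, he2⟩
        rw [Finset.mem_coe, Finset.mem_sdiff]
        refine ⟨he1, ?_⟩
        rw [hK, Finset.mem_filter]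
        rintro ⟨-, h3, -⟩
        exact he2.1 h3
  have s1 : arm (1 / 2) m ≤ ∑ x ∈ S, ∑ d ∈ outd S x,
      Pr (fun _ => (1/2:ℝ)) (boxE m) (DisjOcc (CS S x) (BB (x + stp d))) := by
    unfold arm
    calc Pr (fun _ => (1/2:ℝ)) (boxE m) (Arm m)
        ≤ Pr (fun _ => (1/2:ℝ)) (boxE m) (fun F => ∃ x ∈ S, ∃ d ∈ outd S x,
            DisjOcc (CS S x) (BB (x + stp d)) F) := Pr_mono okh hdec
      _ ≤ ∑ x ∈ S, Pr (fun _ => (1/2:ℝ)) (boxE m) (fun F => ∃ d ∈ outd S x,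
            DisjOcc (CS S x) (BB (x + stp d)) F) := Pr_ex_le okh _ _ _
      _ ≤ _ := Finset.sum_le_sum (fun x _ => Pr_ex_le okh _ _ _)
  refine s1.trans ?_
  unfold phi
  rw [Finset.sum_mul]
  apply Finset.sum_le_sum
  intro x _
  have s2 : ∀ d ∈ outd S x, Pr (fun _ => (1/2:ℝ)) (boxE m) (DisjOcc (CS S x) (BB (x + stp d)))
      ≤ pS S x * arm (1 / 2) n := by
    intro d _
    refine (bk okh (hinA x) (hinB _)).trans ?_
    have h1 : Pr (fun _ => (1/2:ℝ)) (boxE m) (CS S x) = pS S x := by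
      unfold pS
      apply Pr_local hEF
      intro F _
      unfold CS
      rw [coe_inter_eq (Finset.Subset.refl _)]
    have h2 : Pr (fun _ => (1/2:ℝ)) (boxE m) (BB (x + stp d)) ≤ arm (1 / 2) n :=
      arm_bound (by norm_num) (by norm_num) _ _ _
    rw [h1]
    exact mul_le_mul_of_nonneg_left h2 (Pr_nonneg okh _ _)
  calc ∑ d ∈ outd S x, Pr (fun _ => (1/2:ℝ)) (boxE m) (DisjOcc (CS S x) (BB (x + stp d)))
      ≤ ∑ d ∈ outd S x, pS S x * arm (1 / 2) n := Finset.sum_le_sum s2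
    _ = _ := by rw [Finset.sum_const, nsmul_eq_mul]; ring

theorem phi_nonneg (S : Finset V) : 0 ≤ phi S :=
  Finset.sum_nonneg (fun _ _ => mul_nonneg (Nat.cast_nonneg _) (Pr_nonneg okh _ _))

theorem phi_ge_one {S : Finset V} {r : ℕ} (hS : S ⊆ box r) (h0 : (0:V) ∈ S) : 1 ≤ phi S := by
  by_contra hlt
  rw [not_le] at hlt
  have hp := phi_nonneg S
  have h1 : ∀ k : ℕ, arm (1 / 2) (k * (r + 1)) ≤ phi S ^ k := by
    intro k
    induction k with
    | zero => rw [Nat.zero_mul, arm_zero, pow_zero]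
    | succ k ih =>
      have h2 := simon hS h0 (k * (r + 1))
      have e : (k + 1) * (r + 1) = k * (r + 1) + (r + 1) := by ring
      rw [e, pow_succ, mul_comm (phi S ^ k)]
      exact h2.trans (mul_le_mul_of_nonneg_left ih hp)
  have h2 : ∀ k : ℕ, 1 / (2 * ((r:ℝ) + 1)) ≤ ((k:ℝ) + 1) * phi S ^ (k + 1) := by
    intro k
    have h3 := h1 (k + 1)
    obtain ⟨j, hj⟩ : ∃ j, (k + 1) * (r + 1) = j + 1 := ⟨(k + 1) * (r + 1) - 1, by
      have : 0 < (k + 1) * (r + 1) := by positivity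
      omega⟩
    rw [hj] at h3
    have h4 := (arm_lower j).trans h3
    have h5 : ((j:ℝ) + 1) = ((k:ℝ) + 1) * ((r:ℝ) + 1) := by
      have : (((k + 1) * (r + 1) : ℕ) : ℝ) = ((j + 1 : ℕ) : ℝ) := by rw [hj]
      push_cast at this
      linarith
    rw [h5] at h4
    have h6 : (0:ℝ) < (k:ℝ) + 1 := by positivity
    have h7 : (0:ℝ) < (r:ℝ) + 1 := by positivity
    rw [div_le_iff₀ (by positivity)] at h4
    rw [div_le_iff₀ (by positivity)]
    nlinarith
  have h3 : Filter.Tendsto (fun k : ℕ => (k:ℝ) * phi S ^ k) Filter.atTop (nhds 0) :=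
    tendsto_self_mul_const_pow_of_lt_one hp hlt
  have h4 : Filter.Tendsto (fun k : ℕ => ((k:ℝ) + 1) * phi S ^ (k + 1)) Filter.atTop (nhds 0) := by
    have := (Filter.tendsto_add_atTop_iff_nat 1).2 h3
    simpa using this
  have h5 := ge_of_tendsto' h4 h2
  have h6 : (0:ℝ) < 1 / (2 * ((r:ℝ) + 1)) := by positivity
  linarith

end Pool.Agent.R975.BN
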