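import Pool.Agent.R975.BN.One

/-!
# The 3-neighbour graph on the square lattice percolates (helper975): connections
-/

set_option autoImplicit false

namespace Pool.Agent.R975.BN

open Finset H974

/-- the four directions: east, north, west, south; `d + 2` is opposite to `d` -/
def stp : Fin 4 → V := ![(1, 0), (0, 1), (-1, 0), (0, -1)]

theorem stp_opp (d : Fin 4) : stp (d + 2) = - stp d := by
  revert d
  decide

theorem opp_opp (d : Fin 4) : d + 2 + 2 = d := by
  revert d
  decide

theorem stp_inj : Function.Injective stp := by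
  intro d e h
  revert d e
  decide

theorem stp_ne (d : Fin 4) : stp d ≠ 0 := by
  revert d
  decide

theorem back (v : V) (d : Fin 4) : v + stp d + stp (d + 2) = v := by
  rw [stp_opp]
  abel

/-- adjacency in the open graph -/
def SAdj (η : Cfg) (a b : V) : Prop := ∃ d : Fin 4, b = a + stp d ∧ d ∈ η a ∧ d + 2 ∈ η b

theorem SAdj.symm {η : Cfg} {a b : V} (h : SAdj η a b) : SAdj η b a := by
  obtain ⟨d, h1, h2, h3⟩ := h
  refine ⟨d + 2, ?_, h3, ?_⟩
  · rw [h1, back]
  · rw [opp_opp]; exact h2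

theorem SAdj.ne {η : Cfg} {a b : V} (h : SAdj η a b) : a ≠ b := by
  obtain ⟨d, h1, -, -⟩ := h
  rintro rfl
  apply stp_ne d
  have : a + 0 = a + stp d := by rw [add_zero]; exact h1
  exact (add_left_cancel this).symm

/-- connection by an open path inside `T` -/
def Cn (η : Cfg) (T : Set V) : V → V → Prop :=
  Relation.ReflTransGen (fun a b => a ∈ T ∧ b ∈ T ∧ SAdj η a b)

theorem Cn.refl (η : Cfg) (T : Set V) (a : V) : Cn η T a a := Relation.ReflTransGen.refl

theorem Cn.trans {η : Cfg} {T : Set V} {a b c : V} (h : Cn η T a b) (h' : Cn η T b c) :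
    Cn η T a c := Relation.ReflTransGen.trans h h'

theorem Cn.symm {η : Cfg} {T : Set V} {a b : V} (h : Cn η T a b) : Cn η T b a := by
  induction h with
  | refl => exact Cn.refl _ _ _
  | tail _ h2 ih => exact Cn.trans (Relation.ReflTransGen.single ⟨h2.2.1, h2.1, h2.2.2.symm⟩) ih

theorem Cn.step {η : Cfg} {T : Set V} {a b : V} (ha : a ∈ T) (hb : b ∈ T) (h : SAdj η a b) :
    Cn η T a b := Relation.ReflTransGen.single ⟨ha, hb, h⟩

theorem Cn.map {η η' : Cfg} {T T' : Set V}
    (H : ∀ a b, a ∈ T → b ∈ T → SAdj η a b → a ∈ T' ∧ b ∈ T' ∧ SAdj η' a b) {a b : V}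
    (h : Cn η T a b) : Cn η' T' a b := by
  induction h with
  | refl => exact Cn.refl _ _ _
  | tail _ h2 ih => exact Relation.ReflTransGen.tail ih (H _ _ h2.1 h2.2.1 h2.2.2)

theorem Cn.mono {η η' : Cfg} {T T' : Set V} (hη : ∀ v, η v ⊆ η' v) (hT : T ⊆ T') {a b : V}
    (h : Cn η T a b) : Cn η' T' a b := by
  apply h.map
  rintro a b ha hb ⟨d, h1, h2, h3⟩
  exact ⟨hT ha, hT hb, d, h1, hη _ h2, hη _ h3⟩

/-- only the directions pointing into `T` matter -/
theorem Cn.congr_in {η η' : Cfg} {T : Set V}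
    (H : ∀ a ∈ T, ∀ d, a + stp d ∈ T → d ∈ η a → d ∈ η' a) {a b : V}
    (h : Cn η T a b) : Cn η' T a b := by
  apply h.map
  rintro a b ha hb ⟨d, h1, h2, h3⟩
  subst h1
  refine ⟨ha, hb, d, rfl, H a ha d hb h2, H _ hb _ ?_ h3⟩
  rw [back]
  exact ha

theorem Cn.congr {η η' : Cfg} {T : Set V} (H : ∀ a ∈ T, η a = η' a) {a b : V}
    (h : Cn η T a b) : Cn η' T a b :=
  h.congr_in (fun a ha d _ h2 => by rw [← H a ha]; exact h2)

theorem Cn.upd {η : Cfg} {T : Set V} {v : V} (hv : v ∉ T) {s s' : St} {a b : V}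
    (h : Cn (Function.update η v s) T a b) : Cn (Function.update η v s') T a b := by
  apply h.congr
  intro a ha
  have : a ≠ v := fun h => hv (h ▸ ha)
  rw [Function.update_of_ne this, Function.update_of_ne this]

/-- first visit of `v` -/
theorem Cn.first {η : Cfg} {T : Set V} (v : V) {a b : V} (h : Cn η T a b) :
    Cn η (T \ {v}) a b ∨ (a = v ∨ ∃ u, Cn η (T \ {v}) a u ∧ u ∈ T ∧ v ∈ T ∧ u ≠ v ∧ SAdj η u v) := by
  by_cases hav : a = v
  · exact Or.inr (Or.inl hav)
  induction h with
  | refl => exact Or.inl (Cn.refl _ _ _)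
  | @tail b c _ h2 ih =>
    rcases ih with ih | ih
    · by_cases hc : c = v
      · subst hc
        exact Or.inr (Or.inr ⟨b, ih, h2.1, h2.2.1, h2.2.2.ne, h2.2.2⟩)
      · by_cases hb : b = v
        · -- then `a` is connected to `v` off `v`, so `a = v`
          exfalso
          subst hb
          rcases Relation.ReflTransGen.cases_tail ih with h3 | ⟨w, -, h3⟩
          · exact hav h3.symm
          · exact h3.2.1.2 rfl
        · exact Or.inl (Relation.ReflTransGen.tail ih ⟨⟨h2.1, hb⟩, ⟨h2.2.1, hc⟩, h2.2.2⟩)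
    · exact Or.inr ih

/-- last visit of `v` -/
theorem Cn.last {η : Cfg} {T : Set V} (v : V) {a b : V} (h : Cn η T a b) :
    Cn η (T \ {v}) a b ∨ (b = v ∨ ∃ u, Cn η (T \ {v}) u b ∧ u ∈ T ∧ v ∈ T ∧ u ≠ v ∧ SAdj η v u) := by
  rcases h.symm.first v with h1 | h1 | ⟨u, h1, h2, h3, h4, h5⟩
  · exact Or.inl h1.symm
  · exact Or.inr (Or.inl h1)
  · exact Or.inr (Or.inr ⟨u, h1.symm, h2, h3, h4, h5.symm⟩)

/-- connection of two sets inside `T` -/
def Ev (T A B : Set V) (η : Cfg) : Prop := ∃ a ∈ A, ∃ b ∈ B, Cn η T a b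

theorem upd_mono {η : Cfg} {v : V} {s t : St} (h : s ⊆ t) (w : V) :
    Function.update η v s w ⊆ Function.update η v t w := by
  by_cases hw : w = v
  · subst hw
    rw [Function.update_self, Function.update_self]
    exact h
  · rw [Function.update_of_ne hw, Function.update_of_ne hw]

theorem two_ev (T A B : Set V) (η : Cfg) (v : V) :
    Two (fun s => Ev T A B (Function.update η v s)) := by
  constructor
  · rintro s t hst ⟨a, ha, b, hb, h⟩
    exact ⟨a, ha, b, hb, h.mono (upd_mono hst) subset_rfl⟩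
  · rintro s ⟨a, ha, b, hb, h⟩
    have hoff : ∀ t a b, Cn (Function.update η v s) (T \ {v}) a b →
        Cn (Function.update η v t) T a b := by
      intro t a b h
      have h1 : Cn (Function.update η v t) (T \ {v}) a b := h.upd (fun h => h.2 rfl)
      exact h1.mono (fun _ => subset_rfl) Set.sdiff_subset
    by_cases hab : a = b
    · subst hab
      exact ⟨∅, Finset.empty_subset _, by simp, a, ha, a, hb, Cn.refl _ _ _⟩
    rcases h.first v with h1 | h1
    · exact ⟨∅, Finset.empty_subset _, by simp, a, ha, b, hb, hoff _ _ _ h1⟩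
    rcases h.last v with h2 | h2
    · exact ⟨∅, Finset.empty_subset _, by simp, a, ha, b, hb, hoff _ _ _ h2⟩
    -- the direction used to enter
    have hin : ∃ t1 : St, t1 ⊆ s ∧ t1.card ≤ 1 ∧ ∀ t, t1 ⊆ t → Cn (Function.update η v t) T a v := by
      rcases h1 with h1 | ⟨u, h3, h4, h5, h6, d, h7, h8, h9⟩
      · exact ⟨∅, Finset.empty_subset _, by simp, fun t _ => by rw [h1]; exact Cn.refl _ _ _⟩
      · rw [Function.update_of_ne h6] at h8
        rw [Function.update_self] at h9
        refine ⟨{d + 2}, by simpa using h9, by simp, fun t ht => ?_⟩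
        refine (hoff t a u h3).trans (Cn.step h4 h5 ⟨d, h7, ?_, ?_⟩)
        · rw [Function.update_of_ne h6]; exact h8
        · rw [Function.update_self]; exact ht (by simp)
    have hout : ∃ t1 : St, t1 ⊆ s ∧ t1.card ≤ 1 ∧ ∀ t, t1 ⊆ t → Cn (Function.update η v t) T v b := by
      rcases h2 with h1 | ⟨u, h3, h4, h5, h6, d, h7, h8, h9⟩
      · exact ⟨∅, Finset.empty_subset _, by simp, fun t _ => by rw [h1]; exact Cn.refl _ _ _⟩
      · rw [Function.update_of_ne h6] at h9
        rw [Function.update_self] at h8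
        refine ⟨{d}, by simpa using h8, by simp, fun t ht => ?_⟩
        refine Cn.trans (Cn.step h5 h4 ⟨d, h7, ?_, ?_⟩) (hoff t u b h3)
        · rw [Function.update_self]; exact ht (by simp)
        · rw [Function.update_of_ne h6]; exact h9
    obtain ⟨t1, k1, k2, k3⟩ := hin
    obtain ⟨t2, k4, k5, k6⟩ := hout
    refine ⟨t1 ∪ t2, Finset.union_subset k1 k4, ?_, a, ha, b, hb,
      (k3 _ Finset.subset_union_left).trans (k6 _ Finset.subset_union_right)⟩
    have := Finset.card_union_le t1 t2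
    omega

/-- the half edges pointing out of `T` are irrelevant -/
theorem ev_irrel (T A B : Set V) (η : Cfg) (v : V) (O : St) (hO : ∀ d ∈ O, v + stp d ∉ T)
    (s : St) : Ev T A B (Function.update η v s) ↔ Ev T A B (Function.update η v (s \ O)) := by
  constructor
  · rintro ⟨a, ha, b, hb, h⟩
    refine ⟨a, ha, b, hb, h.congr_in ?_⟩
    intro c hc d hd hdc
    by_cases hcv : c = v
    · subst hcv
      rw [Function.update_self] at hdc ⊢
      exact Finset.mem_sdiff.2 ⟨hdc, fun h => hO d h hd⟩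
    · rw [Function.update_of_ne hcv] at hdc ⊢
      exact hdc
  · rintro ⟨a, ha, b, hb, h⟩
    exact ⟨a, ha, b, hb, h.mono (upd_mono Finset.sdiff_subset) subset_rfl⟩

/-! ### The box and the vertices which are not connected to its boundary -/

/-- the box `[-n, n]²` -/
noncomputable def box (n : ℕ) : Finset V := Finset.Icc (-(n:ℤ)) n ×ˢ Finset.Icc (-(n:ℤ)) n

theorem mem_box {n : ℕ} {v : V} : v ∈ box n ↔ (-(n:ℤ) ≤ v.1 ∧ v.1 ≤ n) ∧ (-(n:ℤ) ≤ v.2 ∧ v.2 ≤ n) := by
  unfold box
  rw [Finset.mem_product, Finset.mem_Icc, Finset.mem_Icc]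

/-- the inner boundary of the box -/
def bnd (n : ℕ) : Set V := {v | v ∈ box n ∧ (v.1 = n ∨ v.1 = -n ∨ v.2 = n ∨ v.2 = -n)}

/-- the vertices which are not connected to the boundary -/
noncomputable def SS (n : ℕ) (η : Cfg) : Finset V := by
  classical exact (box n).filter (fun v => ¬ ∃ b ∈ bnd n, Cn η (box n) v b)

theorem mem_SS {n : ℕ} {η : Cfg} {v : V} :
    v ∈ SS n η ↔ v ∈ box n ∧ ¬ ∃ b ∈ bnd n, Cn η (box n) v b := by
  classical
  unfold SS
  simp only [Finset.mem_filter]

theorem stp_abs (d : Fin 4) : |(stp d).1| + |(stp d).2| = 1 := by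
  revert d
  decide

theorem inner_step {n : ℕ} {v : V} (hv : v ∈ box n) (hb : v ∉ bnd n) (d : Fin 4) :
    v + stp d ∈ box n := by
  have h1 := stp_abs d
  have h2 : ¬ (v.1 = n ∨ v.1 = -n ∨ v.2 = n ∨ v.2 = -n) := fun h => hb ⟨hv, h⟩
  rw [mem_box] at hv ⊢
  rw [Prod.fst_add, Prod.snd_add]
  have h3 := abs_nonneg (stp d).1
  have h4 := abs_nonneg (stp d).2
  have h5 := abs_le.1 (show |(stp d).1| ≤ 1 by omega)
  have h6 := abs_le.1 (show |(stp d).2| ≤ 1 by omega)
  omega

theorem SS_not_bnd {n : ℕ} {η : Cfg} {v : V} (hv : v ∈ SS n η) : v ∉ bnd n := by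
  intro hb
  rw [mem_SS] at hv
  exact hv.2 ⟨v, hb, Cn.refl _ _ _⟩

/-- the directions towards open half edges outside of `S` -/
noncomputable def OO (n : ℕ) (S : Finset V) (η : Cfg) (v : V) : St :=
  univ.filter (fun d => v + stp d ∈ box n ∧ v + stp d ∉ S ∧ d + 2 ∈ η (v + stp d))

/-- close the stars in `S` -/
def emp (S : Finset V) (η : Cfg) : Cfg := fun v => if v ∈ S then ∅ else η v

theorem emp_sub (S : Finset V) (η : Cfg) (v : V) : emp S η v ⊆ η v := by
  unfold emp
  split_ifs
  · exact Finset.empty_subset _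
  · exact subset_rfl

theorem SS_iff {n : ℕ} {η : Cfg} {S : Finset V} (hS : S ⊆ box n) :
    SS n η = S ↔ SS n (emp S η) = S ∧ ∀ v ∈ S, Disjoint (η v) (OO n S η v) := by
  constructor
  · intro h
    have hcon : ∀ v ∈ box n, v ∉ S → ∃ b ∈ bnd n, Cn η (box n) v b := by
      intro v hv hvS
      by_contra hc
      apply hvS
      rw [← h, mem_SS]
      exact ⟨hv, hc⟩
    have hncon : ∀ v ∈ S, ¬ ∃ b ∈ bnd n, Cn η (box n) v b := by
      intro v hv
      rw [← h, mem_SS] at hv
      exact hv.2
    constructor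
    · ext v
      rw [mem_SS]
      constructor
      · rintro ⟨hv, hc⟩
        by_contra hvS
        apply hc
        obtain ⟨b, hb, hvb⟩ := hcon v hv hvS
        refine ⟨b, hb, ?_⟩
        clear hc hv hvS
        induction hvb using Relation.ReflTransGen.head_induction_on with
        | refl => exact Cn.refl _ _ _
        | @head a c hac hcb ih =>
          have ha : a ∉ S := fun haS => hncon a haS
            ⟨b, hb, Relation.ReflTransGen.head hac hcb⟩
          have hc : c ∉ S := fun hcS => hncon c hcS ⟨b, hb, hcb⟩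
          refine Cn.trans (Cn.step hac.1 hac.2.1 ?_) ih
          obtain ⟨d, h1, h2, h3⟩ := hac.2.2
          refine ⟨d, h1, ?_, ?_⟩
          · unfold emp; rw [if_neg ha]; exact h2
          · unfold emp; rw [if_neg hc]; exact h3
      · intro hv
        refine ⟨hS hv, ?_⟩
        rintro ⟨b, hb, hc⟩
        exact hncon v hv ⟨b, hb, hc.mono (emp_sub S η) subset_rfl⟩
    · intro v hv
      rw [Finset.disjoint_left]
      intro d hd hdO
      unfold OO at hdO
      rw [Finset.mem_filter] at hdO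
      obtain ⟨-, h1, h2, h3⟩ := hdO
      obtain ⟨b, hb, hc⟩ := hcon _ h1 h2
      exact hncon v hv ⟨b, hb, Cn.trans (Cn.step (hS hv) h1 ⟨d, rfl, hd, h3⟩) hc⟩
  · rintro ⟨h, hd⟩
    have hcon : ∀ v ∈ box n, v ∉ S → ∃ b ∈ bnd n, Cn (emp S η) (box n) v b := by
      intro v hv hvS
      by_contra hc
      apply hvS
      rw [← h, mem_SS]
      exact ⟨hv, hc⟩
    ext v
    rw [mem_SS]
    constructor
    · rintro ⟨hv, hc⟩
      by_contra hvS
      apply hc
      obtain ⟨b, hb, hvb⟩ := hcon v hv hvS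
      exact ⟨b, hb, hvb.mono (emp_sub S η) subset_rfl⟩
    · intro hv
      refine ⟨hS hv, ?_⟩
      rintro ⟨b, hb, hc⟩
      have hbS : b ∉ S := by
        intro hbS
        rw [← h, mem_SS] at hbS
        exact hbS.2 ⟨b, hb, Cn.refl _ _ _⟩
      have key : ∀ w, Cn η (box n) v w → w ∈ S := by
        intro w hw
        induction hw with
        | refl => exact hv
        | @tail a c _ h2 ih =>
          by_contra hcS
          obtain ⟨d, h3, h4, h5⟩ := h2.2.2
          have := hd a ih
          rw [Finset.disjoint_left] at this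
          apply this h4
          unfold OO
          rw [Finset.mem_filter]
          subst h3
          exact ⟨Finset.mem_univ _, h2.2.1, hcS, h5⟩
      exact hbS (key b hc)

end Pool.Agent.R975.BN
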