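import Pool.Agent.R975.BN.Base

/-!
# The 3-neighbour graph on the square lattice percolates (helper975): independent half edges

With independent half edges, open with probability `1 / √2`, the open edges are independent and
open with probability `1 / 2`.
-/

set_option autoImplicit false

namespace Pool.Agent.R975.BN

open Finset H974

/-- half edges -/
abbrev HE := V × Fin 4

/-- the half edges at the vertices of a finite set -/
noncomputable def HH (S : Finset V) : Finset HE := S ×ˢ univ

/-- the configuration given by a set of half edges at the vertices of `L` -/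
def asm (L : List V) (η : Cfg) (K : Finset HE) : Cfg := fun v =>
  if v ∈ L then univ.filter (fun d => (v, d) ∈ K) else η v

theorem EL_half (f : Cfg → ℝ) (L : List V) : L.Nodup → ∀ η : Cfg,
    EL (fun _ => muI) L f η = Ex (fun _ => sg) (HH L.toFinset) (fun K => f (asm L η K)) := by
  induction L with
  | nil =>
    intro _ η
    have h1 : HH (([] : List V).toFinset) = ∅ := by
      unfold HH
      simp
    rw [h1, Ex_empty]
    have h2 : asm [] η ∅ = η := by
      funext v
      simp [asm]
    show f η = _
    rw [h2]
  | cons v L ih =>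
    intro hL η
    rw [List.nodup_cons] at hL
    set Hv : Finset HE := (univ : Finset (Fin 4)).map ⟨fun d => (v, d), fun a b h => (Prod.mk.inj h).2⟩
      with hHv
    have h1 : HH ((v :: L).toFinset) = Hv ∪ HH L.toFinset := by
      ext ⟨w, d⟩
      unfold HH
      simp only [hHv, Finset.mem_product, List.mem_toFinset, List.mem_cons, Finset.mem_univ, and_true,
        Finset.mem_union, Finset.mem_map, true_and, Function.Embedding.coeFn_mk, Prod.mk.injEq,
        exists_eq_right]
      constructor
      · rintro (h | h)
        · exact Or.inl h.symm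
        · exact Or.inr h
      · rintro (h | h)
        · exact Or.inl h.symm
        · exact Or.inr h
    have hd : Disjoint Hv (HH L.toFinset) := by
      rw [Finset.disjoint_left]
      rintro ⟨w, d⟩ h2 h3
      rw [hHv, Finset.mem_map] at h2
      obtain ⟨d', -, h4⟩ := h2
      unfold HH at h3
      rw [Finset.mem_product, List.mem_toFinset] at h3
      have h5 : v = w := (Prod.mk.inj h4).1
      exact hL.1 (h5 ▸ h3.1)
    rw [h1, Ex_union hd, hHv, Ex_map]
    show ∑ s, muI s * EL (fun _ => muI) L f (Function.update η v s) = _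
    rw [sum_muI]
    apply Ex_congr
    intro s _
    rw [ih hL.2]
    apply Ex_congr
    intro K hK
    congr 1
    funext w
    unfold asm
    by_cases hwL : w ∈ L
    · have hwv : w ≠ v := fun h => hL.1 (h ▸ hwL)
      rw [if_pos hwL, if_pos (List.mem_cons_of_mem _ hwL)]
      ext d
      simp only [Finset.mem_filter, Finset.mem_univ, true_and, Finset.mem_union, Finset.mem_map,
        Function.Embedding.coeFn_mk, Prod.mk.injEq]
      constructor
      · intro h; exact Or.inr h
      · rintro (⟨_, _, h, _⟩ | h)
        · exact absurd h.symm hwv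
        · exact h
    · rw [if_neg hwL]
      by_cases hwv : w = v
      · subst hwv
        rw [Function.update_self, if_pos List.mem_cons_self]
        ext d
        simp only [Finset.mem_filter, Finset.mem_univ, true_and, Finset.mem_union, Finset.mem_map,
          Function.Embedding.coeFn_mk, Prod.mk.injEq, exists_eq_right]
        constructor
        · intro h; exact Or.inl h
        · rintro (h | h)
          · exact h
          · exfalso
            have h5 := hK h
            unfold HH at h5
            rw [Finset.mem_product, List.mem_toFinset] at h5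
            exact hwL h5.1
      · rw [Function.update_of_ne hwv, if_neg]
        rw [List.mem_cons, not_or]
        exact ⟨hwv, hwL⟩

/-- the two halves of an edge -/
def hf1 (e : Edg) : HE := (src e, dirE e)
def hf2 (e : Edg) : HE := (tgt e, dirE e + 2)

theorem hf1_inj {e e' : Edg} (h : hf1 e = hf1 e') : e = e' := by
  obtain ⟨x, y, b⟩ := e
  obtain ⟨x', y', b'⟩ := e'
  unfold hf1 src dirE at h
  have h1 := (Prod.mk.inj h).1
  have h2 := (Prod.mk.inj h).2
  have h3 := (Prod.mk.inj h1).1
  have h4 := (Prod.mk.inj h1).2
  simp only at h3 h4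
  subst h3
  subst h4
  cases b <;> cases b' <;> simp at h2 ⊢

theorem hf12 (e e' : Edg) : hf1 e ≠ hf2 e' := by
  intro h
  have h2 := (Prod.mk.inj h).2
  unfold dirE at h2
  have key : ∀ b b' : Bool, (if b then (0 : Fin 4) else 1) ≠ (if b' then (0 : Fin 4) else 1) + 2 := by
    decide
  exact key e.2.2 e'.2.2 h2

theorem hf2_inj {e e' : Edg} (h : hf2 e = hf2 e') : e = e' := by
  have h1 := (Prod.mk.inj h).1
  have h2 := (Prod.mk.inj h).2
  have h3 : dirE e = dirE e' := add_right_cancel h2
  have h4 : src e = src e' := by
    rw [tgt_eq, tgt_eq, h3] at h1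
    exact add_right_cancel h1
  apply hf1_inj
  unfold hf1
  rw [h3, h4]

/-- the halves of the edges of a set -/
noncomputable def halves (E : Finset Edg) : Finset HE := E.image hf1 ∪ E.image hf2

/-- the open edges of a set of half edges -/
noncomputable def opn (E : Finset Edg) (K : Finset HE) : Finset Edg := by
  classical exact E.filter (fun e => hf1 e ∈ K ∧ hf2 e ∈ K)

theorem mem_opn {E : Finset Edg} {K : Finset HE} {e : Edg} :
    e ∈ opn E K ↔ e ∈ E ∧ hf1 e ∈ K ∧ hf2 e ∈ K := by
  classical
  unfold opn
  simp only [Finset.mem_filter]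

theorem Ex_opn (f : Finset Edg → ℝ) (E : Finset Edg) :
    Ex (fun _ => sg) (halves E) (fun K => f (opn E K)) = Ex (fun _ => 1 / 2) E f := by
  classical
  induction E using Finset.induction_on generalizing f with
  | empty =>
    have h1 : halves ∅ = ∅ := by simp [halves]
    have h2 : opn ∅ (∅ : Finset HE) = ∅ := by
      ext e
      simp [mem_opn]
    rw [h1, Ex_empty, Ex_empty, h2]
  | insert a E ha ih =>
    have hk1 : hf1 a ∉ halves E := by
      unfold halves
      rw [Finset.mem_union, Finset.mem_image, Finset.mem_image]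
      rintro (⟨e, he, h⟩ | ⟨e, he, h⟩)
      · exact ha (hf1_inj h ▸ he)
      · exact hf12 _ _ h.symm
    have hk2 : hf2 a ∉ halves E := by
      unfold halves
      rw [Finset.mem_union, Finset.mem_image, Finset.mem_image]
      rintro (⟨e, he, h⟩ | ⟨e, he, h⟩)
      · exact hf12 _ _ h
      · exact ha (hf2_inj h ▸ he)
    have hk3 : hf1 a ∉ insert (hf2 a) (halves E) := by
      rw [Finset.mem_insert, not_or]
      exact ⟨hf12 _ _, hk1⟩
    have h1 : halves (insert a E) = insert (hf1 a) (insert (hf2 a) (halves E)) := by
      unfold halves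
      ext k
      simp only [Finset.image_insert, Finset.mem_union, Finset.mem_insert]
      tauto
    rw [h1, Ex_insert _ hk3, Ex_insert _ hk2, Ex_insert _ hk2, Ex_insert _ ha]
    have hne : ∀ e ∈ E, e ≠ a := fun e he h => ha (h ▸ he)
    have e1 : ∀ K, K ⊆ halves E → opn (insert a E) (insert (hf1 a) (insert (hf2 a) K))
        = insert a (opn E K) := by
      intro K _
      ext e
      simp only [mem_opn, Finset.mem_insert]
      constructor
      · rintro ⟨h2 | h2, h3, h4⟩
        · exact Or.inl h2
        · right
          refine ⟨h2, ?_, ?_⟩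
          · rcases h3 with h3 | h3 | h3
            · exact absurd (hf1_inj h3) (hne e h2)
            · exact absurd h3 (hf12 _ _)
            · exact h3
          · rcases h4 with h4 | h4 | h4
            · exact absurd h4.symm (hf12 _ _)
            · exact absurd (hf2_inj h4) (hne e h2)
            · exact h4
      · rintro (h2 | ⟨h2, h3, h4⟩)
        · subst h2
          exact ⟨Or.inl rfl, Or.inl rfl, Or.inr (Or.inl rfl)⟩
        · exact ⟨Or.inr h2, Or.inr (Or.inr h3), Or.inr (Or.inr h4)⟩
    have e2 : ∀ K, K ⊆ halves E → opn (insert a E) (insert (hf1 a) K) = opn E K := by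
      intro K hK
      ext e
      rw [mem_opn, Finset.mem_insert, mem_opn]
      constructor
      · rintro ⟨h2 | h2, h3, h4⟩
        · subst h2
          exfalso
          rw [Finset.mem_insert] at h4
          rcases h4 with h4 | h4
          · exact absurd h4.symm (hf12 _ _)
          · exact hk2 (hK h4)
        · refine ⟨h2, ?_, ?_⟩
          · rw [Finset.mem_insert] at h3
            rcases h3 with h3 | h3
            · exact absurd (hf1_inj h3) (hne e h2)
            · exact h3
          · rw [Finset.mem_insert] at h4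
            rcases h4 with h4 | h4
            · exact absurd h4.symm (hf12 _ _)
            · exact h4
      · rintro ⟨h2, h3, h4⟩
        exact ⟨Or.inr h2, by simp [h3], by simp [h4]⟩
    have e3 : ∀ K, K ⊆ insert (hf2 a) (halves E) → opn (insert a E) K = opn E K := by
      intro K hK
      ext e
      rw [mem_opn, Finset.mem_insert, mem_opn]
      constructor
      · rintro ⟨h2 | h2, h3, h4⟩
        · subst h2
          exact absurd (hK h3) hk3
        · exact ⟨h2, h3, h4⟩
      · rintro ⟨h2, h3, h4⟩
        exact ⟨Or.inr h2, h3, h4⟩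
    rw [Ex_congr (fun K hK => by rw [e1 K hK] : ∀ K, K ⊆ halves E →
        f (opn (insert a E) (insert (hf1 a) (insert (hf2 a) K))) = (fun F => f (insert a F)) (opn E K)),
      Ex_congr (fun K hK => by rw [e2 K hK] : ∀ K, K ⊆ halves E →
        f (opn (insert a E) (insert (hf1 a) K)) = f (opn E K)),
      Ex_congr (fun K hK => by
        rw [e3 (insert (hf2 a) K) (Finset.insert_subset_insert _ hK)]
        have : opn E (insert (hf2 a) K) = opn E K := by
          ext e
          rw [mem_opn, mem_opn]
          constructor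
          · rintro ⟨h2, h3, h4⟩
            rw [Finset.mem_insert] at h3 h4
            refine ⟨h2, ?_, ?_⟩
            · rcases h3 with h3 | h3
              · exact absurd h3 (hf12 _ _)
              · exact h3
            · rcases h4 with h4 | h4
              · exact absurd (hf2_inj h4) (hne e h2)
              · exact h4
          · rintro ⟨h2, h3, h4⟩
            exact ⟨h2, by simp [h3], by simp [h4]⟩
        rw [this] : ∀ K, K ⊆ halves E →
        f (opn (insert a E) (insert (hf2 a) K)) = f (opn E K)),
      Ex_congr (fun K hK => by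
        rw [e3 K (hK.trans (Finset.subset_insert _ _))] : ∀ K, K ⊆ halves E →
        f (opn (insert a E) K) = f (opn E K))]
    rw [ih f, ih (fun F => f (insert a F))]
    have hs := sg_sq
    have : sg * (sg * Ex (fun _ => 1 / 2) E (fun F => f (insert a F)) + (1 - sg) * Ex (fun _ => 1 / 2) E f)
        + (1 - sg) * (sg * Ex (fun _ => 1 / 2) E f + (1 - sg) * Ex (fun _ => 1 / 2) E f)
        = (sg * sg) * Ex (fun _ => 1 / 2) E (fun F => f (insert a F))
          + (1 - sg * sg) * Ex (fun _ => 1 / 2) E f := by ring
    rw [this, hs]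

theorem SAdj_iff {S : Finset V} {L : List V} (hLS : L.toFinset = S) (η : Cfg) (K : Finset HE)
    {a b : V} : (a ∈ (S : Set V) ∧ b ∈ (S : Set V) ∧ SAdj (asm L η K) a b) ↔
      Adj (↑(opn (EF S) K) ∩ ↑(EF S)) a b := by
  have hmem : ∀ {v : V}, v ∈ S → v ∈ L := fun h => by
    rw [← hLS, List.mem_toFinset] at h; exact h
  have hin : ∀ {v : V} {d : Fin 4}, v ∈ S → (d ∈ asm L η K v ↔ (v, d) ∈ K) := by
    intro v d hv
    unfold asm
    rw [if_pos (hmem hv), Finset.mem_filter]
    simp
  constructor
  · rintro ⟨ha, hb, d, h1, h2, h3⟩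
    have ha' : a ∈ S := ha
    have hb' : b ∈ S := hb
    rw [hin ha'] at h2
    rw [hin hb'] at h3
    have key : ∀ (a b : V) (c : Bool), a ∈ S → b ∈ S → b = a + stp (if c then 0 else 1) →
        (a, (if c then (0 : Fin 4) else 1)) ∈ K → (b, (if c then (0 : Fin 4) else 1) + 2) ∈ K →
        ∃ e ∈ (↑(opn (EF S) K) ∩ ↑(EF S) : Set Edg), src e = a ∧ tgt e = b := by
      intro a b c ha hb h1 h2 h3
      have h4 : tgt (a.1, a.2, c) = b := by
        rw [tgt_eq, h1]
        rfl
      have h5 : ((a.1, a.2, c) : Edg) ∈ EF S := by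
        rw [mem_EF, h4]
        exact ⟨ha, hb⟩
      refine ⟨(a.1, a.2, c), ⟨?_, h5⟩, rfl, h4⟩
      rw [Finset.mem_coe, mem_opn]
      refine ⟨h5, h2, ?_⟩
      unfold hf2
      rw [h4]
      exact h3
    have h1' : a = b + stp (d + 2) := by rw [h1, back]
    fin_cases d
    · obtain ⟨e, he, h4, h5⟩ := key a b true ha' hb' (by simpa using h1) (by simpa using h2) (by simpa using h3)
      exact ⟨e, he, Or.inl ⟨h4, h5⟩⟩
    · obtain ⟨e, he, h4, h5⟩ := key a b false ha' hb' (by simpa using h1) (by simpa using h2) (by simpa using h3)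
      exact ⟨e, he, Or.inl ⟨h4, h5⟩⟩
    · obtain ⟨e, he, h4, h5⟩ := key b a true hb' ha' (by simpa using h1') (by simpa using h3) (by simpa using h2)
      exact ⟨e, he, Or.inr ⟨h4, h5⟩⟩
    · obtain ⟨e, he, h4, h5⟩ := key b a false hb' ha' (by simpa using h1') (by simpa using h3) (by simpa using h2)
      exact ⟨e, he, Or.inr ⟨h4, h5⟩⟩
  · rintro ⟨e, ⟨he, -⟩, hcase⟩
    rw [Finset.mem_coe, mem_opn] at he
    obtain ⟨h1, h2, h3⟩ := he
    rw [mem_EF] at h1
    have h4 : SAdj (asm L η K) (src e) (tgt e) :=
      ⟨dirE e, tgt_eq e, (hin h1.1).2 h2, (hin h1.2).2 h3⟩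
    rcases hcase with ⟨h5, h6⟩ | ⟨h5, h6⟩
    · rw [← h5, ← h6]
      exact ⟨h1.1, h1.2, h4⟩
    · rw [← h5, ← h6]
      exact ⟨h1.2, h1.1, h4.symm⟩

/-- connection probabilities with independent half edges -/
theorem EL_conn (S : Finset V) (x : V) (η : Cfg) :
    EL (fun _ => muI) S.toList (fun η => ind (Ev S {0} {x} η)) η = pS S x := by
  rw [EL_half _ _ (Finset.nodup_toList S)]
  have h0 : S.toList.toFinset = S := Finset.toList_toFinset S
  rw [h0]
  unfold pS Pr
  rw [← Ex_opn]
  have hsub : halves (EF S) ⊆ HH S := by
    intro k hk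
    unfold halves at hk
    rw [Finset.mem_union, Finset.mem_image, Finset.mem_image] at hk
    unfold HH
    rw [Finset.mem_product]
    rcases hk with ⟨e, he, rfl⟩ | ⟨e, he, rfl⟩
    · exact ⟨(mem_EF.1 he).1, Finset.mem_univ _⟩
    · exact ⟨(mem_EF.1 he).2, Finset.mem_univ _⟩
  have hiff : ∀ K, Ev S {0} {x} (asm S.toList η K) ↔ CS S x (opn (EF S) K) := by
    intro K
    have hrel : (fun a b => a ∈ (S : Set V) ∧ b ∈ (S : Set V) ∧ SAdj (asm S.toList η K) a b)
        = Adj (↑(opn (EF S) K) ∩ ↑(EF S)) := by
      funext a b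
      exact propext (SAdj_iff h0 η K)
    unfold Ev CS Cn Reach
    rw [hrel]
    simp
  have hopn : ∀ K, opn (EF S) (K ∩ halves (EF S)) = opn (EF S) K := by
    intro K
    ext e
    rw [mem_opn, mem_opn, Finset.mem_inter, Finset.mem_inter]
    constructor
    · rintro ⟨h1, ⟨h2, -⟩, h3, -⟩
      exact ⟨h1, h2, h3⟩
    · rintro ⟨h1, h2, h3⟩
      refine ⟨h1, ⟨h2, ?_⟩, h3, ?_⟩
      · exact Finset.mem_union_left _ (Finset.mem_image_of_mem _ h1)
      · exact Finset.mem_union_right _ (Finset.mem_image_of_mem _ h1)
  rw [Ex_local hsub]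
  · apply Ex_congr
    intro K _
    exact ind_congr (hiff K)
  · intro K _
    apply ind_congr
    rw [hiff, hiff, hopn]

end Pool.Agent.R975.BN
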