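import Pool.Agent.R975.BN.Surg
import Pool.Agent.R975.BN.Link

/-!
# The 3-neighbour graph on the square lattice percolates (helper975): differential inequality
-/

set_option autoImplicit false

namespace Pool.Agent.R975.BN

open Finset H974

/-- the connection of the origin with the boundary of the box -/
noncomputable def Gf (n : ℕ) (η : Cfg) : ℝ := ind (Ev (box n) {0} (bnd n) η)

/-- the empty configuration -/
def e0 : Cfg := fun _ => ∅

/-- the strongly pivotal vertices -/
def Mv (n : ℕ) (x : V) (η : Cfg) : Prop :=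
  Mul (fun s => Ev (box n) {0} (bnd n) (Function.update η x s))

noncomputable def LL (n : ℕ) : List V := (box n).toList

/-- the connection probability for the mixture -/
noncomputable def hm (n : ℕ) (t : ℝ) : ℝ := EL (fun _ => MM t) (LL n) (Gf n) e0

theorem EL_one {w : V → St → ℝ} (L : List V) : ∀ η : Cfg,
    EL w L (fun _ => 1) η = (L.map (fun v => ∑ s, w v s)).prod := by
  induction L with
  | nil => intro η; simp [EL]
  | cons v L ih =>
    intro η
    show ∑ s, w v s * EL w L (fun _ => 1) (Function.update η v s) = _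
    simp only [ih]
    rw [← Finset.sum_mul, List.map_cons, List.prod_cons]

theorem EL_nonneg {m : V → St → ℝ} (hm : ∀ v s, 0 ≤ m v s) {f : Cfg → ℝ} (h : ∀ η, 0 ≤ f η)
    (L : List V) (η : Cfg) : 0 ≤ EL m L f η := by
  have h1 := EL_mono (m := m) hm (f := fun _ => 0) (g := f) h L η
  have h2 := EL_mul (m := m) 0 (fun _ => 0) L η
  simp only [zero_mul, mul_zero] at h2
  rw [h2] at h1
  exact h1

theorem OO_congr {n : ℕ} {S : Finset V} {η η' : Cfg} (h : ∀ w, w ∉ S → η' w = η w) (v : V) :
    OO n S η' v = OO n S η v := by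
  unfold OO
  apply Finset.filter_congr
  intro d _
  constructor
  · rintro ⟨h1, h2, h3⟩
    rw [h _ h2] at h3
    exact ⟨h1, h2, h3⟩
  · rintro ⟨h1, h2, h3⟩
    rw [← h _ h2] at h3
    exact ⟨h1, h2, h3⟩

theorem emp_congr {S : Finset V} {η η' : Cfg} (h : ∀ w, w ∉ S → η' w = η w) :
    emp S η' = emp S η := by
  funext w
  unfold emp
  by_cases hw : w ∈ S
  · rw [if_pos hw, if_pos hw]
  · rw [if_neg hw, if_neg hw, h w hw]

theorem ind_prod_list (L : List V) (P : V → Prop) :
    (L.map (fun v => ind (P v))).prod = ind (∀ v ∈ L, P v) := by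
  induction L with
  | nil => simp [ind_of]
  | cons v L ih =>
    rw [List.map_cons, List.prod_cons, ih, ← ind_and]
    apply ind_congr
    simp

/-- conditionally on the set of vertices which are not connected to the boundary -/
theorem inner_ineq {n : ℕ} {S : Finset V} (hS : S ⊆ box n) {x : V} {t : ℝ} (h0 : 0 ≤ t)
    (h1 : t ≤ 1) (η : Cfg) :
    EL (fun _ => MM t) S.toList (fun η => ind (SS n η = S)) η * pS S x ≤
      EL (fun _ => MM t) S.toList (fun η => ind (SS n η = S) * ind (Ev S {0} {x} η)) η := by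
  classical
  set k : V → St → ℝ := fun v s => ind (Disjoint s (OO n S η v)) with hk
  set a : ℝ := ind (SS n (emp S η) = S) with ha
  have ha0 : 0 ≤ a := ind_nonneg _
  have hk0 : ∀ v s, 0 ≤ k v s := fun v s => ind_nonneg _
  have hfac : ∀ η' : Cfg, (∀ w, w ∉ S.toList → η' w = η w) →
      ind (SS n η' = S) = a * (S.toList.map (fun v => k v (η' v))).prod := by
    intro η' h'
    have h'' : ∀ w, w ∉ S → η' w = η w := by
      intro w hw
      exact h' w (by rw [Finset.mem_toList]; exact hw)
    rw [ha, hk, ind_prod_list, ← ind_and]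
    apply ind_congr
    rw [SS_iff hS, emp_congr h'']
    constructor
    · rintro ⟨h2, h3⟩
      refine ⟨h2, fun v hv => ?_⟩
      rw [Finset.mem_toList] at hv
      rw [← OO_congr h'']
      exact h3 v hv
    · rintro ⟨h2, h3⟩
      refine ⟨h2, fun v hv => ?_⟩
      rw [OO_congr h'']
      exact h3 v (by rw [Finset.mem_toList]; exact hv)
  have e1 : EL (fun _ => MM t) S.toList (fun η => ind (SS n η = S)) η
      = a * EL (fun v s => MM t s * k v s) S.toList (fun _ => 1) η := by
    rw [← EL_weight (m := fun _ => MM t) k (fun _ => 1) S.toList (Finset.nodup_toList S), ← EL_mul]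
    apply EL_congr_off
    intro η' h'
    rw [hfac η' h', mul_one]
  have e2 : EL (fun _ => MM t) S.toList (fun η => ind (SS n η = S) * ind (Ev S {0} {x} η)) η
      = a * EL (fun v s => MM t s * k v s) S.toList (fun η => ind (Ev S {0} {x} η)) η := by
    rw [← EL_weight (m := fun _ => MM t) k (fun η => ind (Ev S {0} {x} η)) S.toList
      (Finset.nodup_toList S), ← EL_mul]
    apply EL_congr_off
    intro η' h'
    rw [hfac η' h']
    ring
  rw [e1, e2, EL_one, ← EL_conn S x η, mul_assoc]
  apply mul_le_mul_of_nonneg_left _ ha0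
  apply EL_compare (κ := fun v => ∑ s, MM t s * k v s)
  · intro v
    exact Finset.sum_nonneg (fun s _ => mul_nonneg (MM_nonneg h0 h1 s) (hk0 v s))
  · intro v s
    exact mul_nonneg (MM_nonneg h0 h1 s) (hk0 v s)
  · intro v s
    exact muI_nonneg s
  · exact Finset.nodup_toList S
  · intro v _ η''
    have h2 := one_star_cond (two_ev (↑S) {0} {x} η'' v) (OO n S η v)
      (fun s => ev_irrel (↑S) {0} {x} η'' v (OO n S η v) (by
        intro d hd
        unfold OO at hd
        rw [Finset.mem_filter] at hd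
        exact hd.2.2.1) s) h0 h1
    exact h2

theorem perm_split {n : ℕ} {S : Finset V} (hS : S ⊆ box n) :
    (LL n).Perm ((box n \ S).toList ++ S.toList) := by
  unfold LL
  rw [List.perm_ext_iff_of_nodup (Finset.nodup_toList _)]
  · intro v
    rw [List.mem_append, Finset.mem_toList, Finset.mem_toList, Finset.mem_toList, Finset.mem_sdiff]
    constructor
    · intro h
      by_cases hv : v ∈ S
      · exact Or.inr hv
      · exact Or.inl ⟨h, hv⟩
    · rintro (h | h)
      · exact h.1
      · exact hS h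
  · rw [List.nodup_append]
    refine ⟨Finset.nodup_toList _, Finset.nodup_toList _, ?_⟩
    intro a ha b hb hab
    rw [Finset.mem_toList] at ha hb
    subst hab
    exact (Finset.mem_sdiff.1 ha).2 hb

theorem box_ineq {n : ℕ} {S : Finset V} (hS : S ⊆ box n) {x : V} {t : ℝ} (h0 : 0 ≤ t)
    (h1 : t ≤ 1) (η : Cfg) :
    EL (fun _ => MM t) (LL n) (fun η => ind (SS n η = S)) η * pS S x ≤
      EL (fun _ => MM t) (LL n) (fun η => ind (SS n η = S) * ind (Ev S {0} {x} η)) η := by
  rw [EL_perm (perm_split hS), EL_perm (perm_split hS), EL_append, EL_append]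
  have h2 := EL_mono (m := fun _ => MM t) (fun _ s => MM_nonneg h0 h1 s)
    (f := fun η => pS S x * EL (fun _ => MM t) S.toList (fun η => ind (SS n η = S)) η)
    (g := EL (fun _ => MM t) S.toList (fun η => ind (SS n η = S) * ind (Ev S {0} {x} η)))
    (fun η => by rw [mul_comm]; exact inner_ineq hS h0 h1 η) (box n \ S).toList η
  rw [EL_mul, mul_comm] at h2
  exact h2

/-- the good pairs -/
def good (n : ℕ) (x : V) (d : Fin 4) (η : Cfg) : Prop :=
  (0:V) ∈ SS n η ∧ x ∈ SS n η ∧ x + stp d ∉ SS n η ∧ Cn η (SS n η) 0 x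

theorem good_bound {n : ℕ} (hn : 1 ≤ n) {t : ℝ} (h0 : 0 ≤ t) (h1 : t ≤ 1 / 2) (x : V)
    (d : Fin 4) (η : Cfg) :
    ind (good n x d η) ≤ 512 ^ 3 * (EL (fun _ => MM t)
        [x + stp d, x + stp (d + 1), x + stp d + stp (d + 1)] (fun η => ind (Mv n x η)) η +
      EL (fun _ => MM t)
        [x + stp d, x + stp (d + 3), x + stp d + stp (d + 3)] (fun η => ind (Mv n x η)) η) := by
  have hM0 : ∀ (v : V) s, 0 ≤ (fun _ : V => MM t) v s := fun _ s => MM_nonneg h0 (by linarith) s
  have hnn : ∀ W, 0 ≤ EL (fun _ => MM t) W (fun η => ind (Mv n x η)) η :=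
    fun W => EL_nonneg hM0 (fun _ => ind_nonneg _) W η
  by_cases hg : good n x d η
  · rw [ind_of hg]
    obtain ⟨g1, g2, g3, g4⟩ := hg
    obtain ⟨e, he, η', h3, h4⟩ := surgery hn g1 g2 g3 g4
    have h5 := EL_ge (m := fun _ => MM t) hM0 (c := 1 / 512) (by norm_num)
      (fun _ s => MM_lo h0 h1 s) (f := fun η => ind (Mv n x η)) (fun _ => ind_nonneg _)
      [x + stp d, x + stp e, x + stp d + stp e] η η' h3
    have h6 : Mv n x η' := h4
    rw [ind_of h6] at h5
    have h7 := hnn [x + stp d, x + stp (d + 1), x + stp d + stp (d + 1)]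
    have h8 := hnn [x + stp d, x + stp (d + 3), x + stp d + stp (d + 3)]
    have hlen : [x + stp d, x + stp e, x + stp d + stp e].length = 3 := rfl
    rw [hlen] at h5
    have h9 : (1:ℝ) ≤ 512 ^ 3 * EL (fun _ => MM t) [x + stp d, x + stp e, x + stp d + stp e]
        (fun η => ind (Mv n x η)) η := by
      have h10 : (1:ℝ) = 512 ^ 3 * ((1 / 512) ^ 3 * 1) := by norm_num
      rw [h10]
      exact mul_le_mul_of_nonneg_left h5 (by norm_num)
    refine h9.trans (mul_le_mul_of_nonneg_left ?_ (by norm_num))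
    rcases he with he | he
    · subst he
      exact le_add_of_nonneg_right h8
    · subst he
      exact le_add_of_nonneg_left h7
  · rw [ind_not_of hg]
    exact mul_nonneg (by norm_num) (add_nonneg (hnn _) (hnn _))

theorem good_int {n : ℕ} (hn : 1 ≤ n) {t : ℝ} (h0 : 0 ≤ t) (h1 : t ≤ 1 / 2) {x : V}
    (hx : x ∈ box n) (d : Fin 4) :
    EL (fun _ => MM t) (LL n) (fun η => ind (good n x d η)) e0 ≤
      2 * 512 ^ 3 * EL (fun _ => MM t) (LL n) (fun η => ind (Mv n x η)) e0 := by
  have hM0 : ∀ (v : V) s, 0 ≤ (fun _ : V => MM t) v s := fun _ s => MM_nonneg h0 (by linarith) s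
  by_cases hxb : x ∈ bnd n
  · have h2 : ∀ η, ind (good n x d η) ≤ 0 := by
      intro η
      rw [ind_not_of]
      rintro ⟨-, h3, -⟩
      exact SS_not_bnd h3 hxb
    have h3 := EL_mono (m := fun _ => MM t) hM0 h2 (LL n) e0
    have h4 := EL_const (m := fun _ => MM t) (fun _ => MM_one t) 0 (LL n) e0
    rw [h4] at h3
    refine h3.trans ?_
    have := EL_nonneg (m := fun _ => MM t) hM0 (f := fun η => ind (Mv n x η))
      (fun _ => ind_nonneg _) (LL n) e0
    positivity
  · have h2 := EL_mono (m := fun _ => MM t) hM0 (good_bound hn h0 h1 x d) (LL n) e0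
    rw [EL_mul, EL_add] at h2
    have htow : ∀ e : Fin 4, (e = d + 1 ∨ e = d + 3) →
        EL (fun _ => MM t) (LL n) (EL (fun _ => MM t)
          [x + stp d, x + stp e, x + stp d + stp e] (fun η => ind (Mv n x η))) e0
        = EL (fun _ => MM t) (LL n) (fun η => ind (Mv n x η)) e0 := by
      intro e he
      apply EL_tower_list (fun _ => MM_one t) _ _ (Finset.nodup_toList _)
      intro v hv
      rw [Finset.mem_toList]
      simp only [List.mem_cons, List.not_mem_nil, or_false] at hv
      rcases hv with hv | hv | hv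
      · rw [hv]; exact inner_step hx hxb d
      · rw [hv]; exact inner_step hx hxb e
      · rw [hv]; exact inner_step2 hx hxb he
    have h3 := htow (d + 1) (Or.inl rfl)
    have h4 := htow (d + 3) (Or.inr rfl)
    have h5 : EL (fun _ => MM t) (LL n) (fun η => EL (fun _ => MM t)
        [x + stp d, x + stp (d + 1), x + stp d + stp (d + 1)] (fun η => ind (Mv n x η)) η) e0
        = EL (fun _ => MM t) (LL n) (fun η => ind (Mv n x η)) e0 := h3
    have h6 : EL (fun _ => MM t) (LL n) (fun η => EL (fun _ => MM t)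
        [x + stp d, x + stp (d + 3), x + stp d + stp (d + 3)] (fun η => ind (Mv n x η)) η) e0
        = EL (fun _ => MM t) (LL n) (fun η => ind (Mv n x η)) e0 := h4
    rw [h5, h6] at h2
    linarith

theorem zero_box (n : ℕ) : (0:V) ∈ box n := by
  rw [mem_box]
  simp

theorem not_ev_iff (n : ℕ) (η : Cfg) : ¬ Ev (box n) {0} (bnd n) η ↔ (0:V) ∈ SS n η := by
  rw [mem_SS]
  constructor
  · intro h
    refine ⟨zero_box n, ?_⟩
    rintro ⟨b, hb, hc⟩
    exact h ⟨0, rfl, b, hb, hc⟩
  · rintro ⟨-, h⟩ ⟨a, ha, b, hb, hc⟩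
    rw [Set.mem_singleton_iff] at ha
    subst ha
    exact h ⟨b, hb, hc⟩

theorem SS_sub (n : ℕ) (η : Cfg) : SS n η ⊆ box n := fun _ h => (mem_SS.1 h).1

/-- the analogue of the inequality of Duminil-Copin and Tassion -/
theorem dct {n : ℕ} (hn : 1 ≤ n) {t : ℝ} (h0 : 0 ≤ t) (h1 : t ≤ 1 / 2) :
    1 - hm n t ≤ 8 * 512 ^ 3 *
      ∑ x ∈ box n, EL (fun _ => MM t) (LL n) (fun η => ind (Mv n x η)) e0 := by
  classical
  have h1' : t ≤ 1 := by linarith
  have hM0 : ∀ (v : V) s, 0 ≤ (fun _ : V => MM t) v s := fun _ s => MM_nonneg h0 h1' s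
  set I : Finset (Finset V) := (box n).powerset.filter (fun S => (0:V) ∈ S) with hI
  -- decomposition of the complement
  have s1 : 1 - hm n t = ∑ S ∈ I, EL (fun _ => MM t) (LL n) (fun η => ind (SS n η = S)) e0 := by
    rw [← EL_sum]
    have h2 : EL (fun _ => MM t) (LL n) (fun η => 1 + (-1) * Gf n η) e0 = 1 - hm n t := by
      rw [EL_add, EL_mul, EL_const (fun _ => MM_one t)]
      unfold hm
      ring
    rw [← h2]
    congr 1
    funext η
    unfold Gf
    by_cases hE : Ev (box n) {0} (bnd n) η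
    · rw [ind_of hE]
      rw [Finset.sum_eq_zero]
      · norm_num
      · intro S hS
        rw [hI, Finset.mem_filter] at hS
        apply ind_not_of
        rintro rfl
        exact (not_ev_iff n η).2 hS.2 hE
    · rw [ind_not_of hE]
      have h3 := (not_ev_iff n η).1 hE
      rw [Finset.sum_eq_single (SS n η)]
      · rw [ind_of rfl]; norm_num
      · intro S _ hS
        exact ind_not_of (fun h => hS h.symm)
      · intro h
        exfalso
        apply h
        rw [hI, Finset.mem_filter, Finset.mem_powerset]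
        exact ⟨SS_sub n η, h3⟩
  have s2 : ∀ S ∈ I, EL (fun _ => MM t) (LL n) (fun η => ind (SS n η = S)) e0 ≤
      ∑ x ∈ S, ∑ d ∈ outd S x, EL (fun _ => MM t) (LL n)
        (fun η => ind (SS n η = S) * ind (Ev S {0} {x} η)) e0 := by
    intro S hS
    rw [hI, Finset.mem_filter, Finset.mem_powerset] at hS
    have hp := phi_ge_one hS.1 hS.2
    have hE0 : 0 ≤ EL (fun _ => MM t) (LL n) (fun η => ind (SS n η = S)) e0 :=
      EL_nonneg hM0 (fun _ => ind_nonneg _) _ _
    calc EL (fun _ => MM t) (LL n) (fun η => ind (SS n η = S)) e0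
        ≤ EL (fun _ => MM t) (LL n) (fun η => ind (SS n η = S)) e0 * phi S :=
          le_mul_of_one_le_right hE0 hp
      _ = ∑ x ∈ S, ∑ d ∈ outd S x,
          EL (fun _ => MM t) (LL n) (fun η => ind (SS n η = S)) e0 * pS S x := by
          unfold phi
          rw [Finset.mul_sum]
          apply Finset.sum_congr rfl
          intro x _
          rw [Finset.sum_const, nsmul_eq_mul]
          ring
      _ ≤ _ := Finset.sum_le_sum (fun x _ => Finset.sum_le_sum (fun d _ =>
          box_ineq hS.1 h0 h1' e0))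
  have s3 : ∑ S ∈ I, ∑ x ∈ S, ∑ d ∈ outd S x, EL (fun _ => MM t) (LL n)
        (fun η => ind (SS n η = S) * ind (Ev S {0} {x} η)) e0 ≤
      ∑ x ∈ box n, ∑ d : Fin 4, EL (fun _ => MM t) (LL n) (fun η => ind (good n x d η)) e0 := by
    have e1 : ∑ S ∈ I, ∑ x ∈ S, ∑ d ∈ outd S x, EL (fun _ => MM t) (LL n)
        (fun η => ind (SS n η = S) * ind (Ev S {0} {x} η)) e0
        = EL (fun _ => MM t) (LL n) (fun η => ∑ S ∈ I, ∑ x ∈ S, ∑ d ∈ outd S x,
          ind (SS n η = S) * ind (Ev S {0} {x} η)) e0 := by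
      rw [EL_sum]
      apply Finset.sum_congr rfl
      intro S _
      rw [EL_sum]
      apply Finset.sum_congr rfl
      intro x _
      rw [EL_sum]
    have e2 : ∑ x ∈ box n, ∑ d : Fin 4, EL (fun _ => MM t) (LL n) (fun η => ind (good n x d η)) e0
        = EL (fun _ => MM t) (LL n) (fun η => ∑ x ∈ box n, ∑ d : Fin 4, ind (good n x d η)) e0 := by
      rw [EL_sum]
      apply Finset.sum_congr rfl
      intro x _
      rw [EL_sum]
    rw [e1, e2]
    apply EL_mono hM0
    intro η
    have hle : ∀ S ∈ I, ∑ x ∈ S, ∑ d ∈ outd S x, ind (SS n η = S) * ind (Ev S {0} {x} η) ≤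
        if S = SS n η then ∑ x ∈ box n, ∑ d : Fin 4, ind (good n x d η) else 0 := by
      intro S hS
      rw [hI, Finset.mem_filter, Finset.mem_powerset] at hS
      by_cases hSS : S = SS n η
      · rw [if_pos hSS]
        calc ∑ x ∈ S, ∑ d ∈ outd S x, ind (SS n η = S) * ind (Ev S {0} {x} η)
            ≤ ∑ x ∈ S, ∑ d ∈ outd S x, ind (good n x d η) := by
              apply Finset.sum_le_sum
              intro x hx
              apply Finset.sum_le_sum
              intro d hd
              rw [← ind_and]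
              apply ind_mono
              rintro ⟨h3, a, ha, b, hb, hc⟩
              rw [Set.mem_singleton_iff] at ha hb
              subst ha
              subst hb
              unfold outd at hd
              rw [Finset.mem_filter] at hd
              unfold good
              rw [h3]
              exact ⟨hS.2, hx, hd.2, hc⟩
          _ ≤ ∑ x ∈ S, ∑ d : Fin 4, ind (good n x d η) := by
              apply Finset.sum_le_sum
              intro x _
              exact Finset.sum_le_sum_of_subset_of_nonneg (Finset.subset_univ _)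
                (fun _ _ _ => ind_nonneg _)
          _ ≤ _ := Finset.sum_le_sum_of_subset_of_nonneg hS.1
                (fun _ _ _ => Finset.sum_nonneg (fun _ _ => ind_nonneg _))
      · rw [if_neg hSS]
        apply le_of_eq
        apply Finset.sum_eq_zero
        intro x _
        apply Finset.sum_eq_zero
        intro d _
        rw [ind_not_of (fun h => hSS h.symm), zero_mul]
    refine (Finset.sum_le_sum hle).trans ?_
    rw [Finset.sum_ite_eq']
    split_ifs
    · exact le_refl _
    · exact Finset.sum_nonneg (fun _ _ => Finset.sum_nonneg (fun _ _ => ind_nonneg _))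
  have s4 : ∑ x ∈ box n, ∑ d : Fin 4, EL (fun _ => MM t) (LL n) (fun η => ind (good n x d η)) e0
      ≤ 8 * 512 ^ 3 * ∑ x ∈ box n, EL (fun _ => MM t) (LL n) (fun η => ind (Mv n x η)) e0 := by
    rw [Finset.mul_sum]
    apply Finset.sum_le_sum
    intro x hx
    calc ∑ d : Fin 4, EL (fun _ => MM t) (LL n) (fun η => ind (good n x d η)) e0
        ≤ ∑ _d : Fin 4, 2 * 512 ^ 3 * EL (fun _ => MM t) (LL n) (fun η => ind (Mv n x η)) e0 :=
          Finset.sum_le_sum (fun d _ => good_int hn h0 h1 hx d)
      _ = _ := by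
          rw [Finset.sum_const, Finset.card_univ, Fintype.card_fin, nsmul_eq_mul]
          push_cast
          ring
  rw [s1]
  exact ((Finset.sum_le_sum s2).trans s3).trans s4

/-- the derivative -/
noncomputable def dh (n : ℕ) (t : ℝ) : ℝ :=
  ((LL n).map (fun v => EL (fun _ => MM t) (LL n) (AV (fun s => muO s - muI s) v (Gf n)) e0)).sum

theorem hm_deriv (n : ℕ) (t : ℝ) : HasDerivAt (hm n) (dh n t) t :=
  EL_deriv MM_deriv MM_one (Gf n) t (LL n) (Finset.nodup_toList _) e0

theorem dh_lower (n : ℕ) {t : ℝ} (h0 : 0 ≤ t) (h1 : t ≤ 1) :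
    1 / 256 * ∑ x ∈ box n, EL (fun _ => MM t) (LL n) (fun η => ind (Mv n x η)) e0 ≤ dh n t := by
  have e1 : dh n t = ∑ x ∈ box n,
      EL (fun _ => MM t) (LL n) (AV (fun s => muO s - muI s) x (Gf n)) e0 := by
    unfold dh LL
    rw [← Finset.sum_map_toList]
  rw [e1, Finset.mul_sum]
  apply Finset.sum_le_sum
  intro x _
  rw [← EL_mul]
  apply EL_mono (fun _ s => MM_nonneg h0 h1 s)
  intro η
  have h2 := one_star (two_ev (↑(box n)) {0} (bnd n) η x)
  unfold AV Gf Mv
  simp only [sub_mul, Finset.sum_sub_distrib]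
  linarith

/-- the constant of the differential inequality -/
noncomputable def cst : ℝ := 1 / 256 * (1 / (8 * 512 ^ 3))

theorem cst_pos : 0 < cst := by unfold cst; positivity

theorem cst_le : cst ≤ 1 := by unfold cst; norm_num

theorem diff_ineq {n : ℕ} (hn : 1 ≤ n) {t : ℝ} (h0 : 0 ≤ t) (h1 : t ≤ 1 / 2) :
    cst * (1 - hm n t) ≤ dh n t := by
  have h2 := dct hn h0 h1
  have h3 := dh_lower n h0 (by linarith : t ≤ 1)
  refine le_trans ?_ h3
  unfold cst
  rw [mul_assoc]
  apply mul_le_mul_of_nonneg_left _ (by norm_num)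
  rw [div_mul_eq_mul_div, one_mul, div_le_iff₀ (by positivity)]
  linarith

theorem hm_le_one {n : ℕ} {t : ℝ} (h0 : 0 ≤ t) (h1 : t ≤ 1) : hm n t ≤ 1 := by
  unfold hm
  have h2 := EL_mono (m := fun _ => MM t) (fun _ s => MM_nonneg h0 h1 s) (f := Gf n)
    (g := fun _ => 1) (fun η => ind_le_one _) (LL n) e0
  rwa [EL_const (fun _ => MM_one t)] at h2

theorem hm_nonneg {n : ℕ} {t : ℝ} (h0 : 0 ≤ t) (h1 : t ≤ 1) : 0 ≤ hm n t :=
  EL_nonneg (fun _ s => MM_nonneg h0 h1 s) (fun _ => ind_nonneg _) _ _

theorem half_lower {n : ℕ} (hn : 1 ≤ n) : cst / 4 ≤ hm n (1 / 2) := by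
  by_contra hlt
  rw [not_le] at hlt
  have hc := cst_pos
  have hc1 := cst_le
  have hcont : ContinuousOn (hm n) (Set.Icc 0 (1 / 2)) :=
    fun t _ => (hm_deriv n t).continuousAt.continuousWithinAt
  have hdiff : DifferentiableOn ℝ (hm n) (interior (Set.Icc 0 (1 / 2))) :=
    fun t _ => (hm_deriv n t).differentiableAt.differentiableWithinAt
  have hmono : MonotoneOn (hm n) (Set.Icc 0 (1 / 2)) := by
    apply monotoneOn_of_deriv_nonneg (convex_Icc _ _) hcont hdiff
    intro t ht
    rw [interior_Icc] at ht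
    rw [(hm_deriv n t).deriv]
    have h1 := diff_ineq hn ht.1.le ht.2.le
    have h2 := hm_le_one (n := n) ht.1.le (by linarith [ht.2] : t ≤ 1)
    nlinarith
  have hb : ∀ t ∈ Set.Icc (0:ℝ) (1 / 2), hm n t ≤ 1 / 2 := by
    intro t ht
    have h1 := hmono ht ⟨by norm_num, le_refl _⟩ ht.2
    linarith
  have hmv := Convex.mul_sub_le_image_sub_of_le_deriv (convex_Icc (0:ℝ) (1 / 2)) hcont hdiff
    (C := cst / 2) (by
      intro t ht
      rw [interior_Icc] at ht
      rw [(hm_deriv n t).deriv]
      have h1 := diff_ineq hn ht.1.le ht.2.le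
      have h2 := hb t ⟨ht.1.le, ht.2.le⟩
      nlinarith) 0 ⟨le_refl _, by norm_num⟩ (1 / 2) ⟨by norm_num, le_refl _⟩ (by norm_num)
  have h3 := hm_nonneg (n := n) (t := 0) (le_refl _) (by norm_num)
  linarith

/-- the connection probabilities when every vertex omits exactly one half edge -/
theorem omit_lower {n : ℕ} (hn : 1 ≤ n) : cst / 4 ≤ EL (fun _ => muO) (LL n) (Gf n) e0 := by
  refine (half_lower hn).trans ?_
  have h1 := EL_compare (r := fun _ => muO) (μ := fun _ => MM (1 / 2)) (κ := fun _ => 1)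
    (fun _ => by norm_num) (fun _ s => muO_nonneg s)
    (fun _ s => MM_nonneg (by norm_num) (by norm_num) s) (f := Gf n) (LL n)
    (Finset.nodup_toList _) (by
      intro v _ η
      rw [one_mul]
      have h2 := one_star (two_ev (↑(box n)) {0} (bnd n) η v)
      have h3 := ind_nonneg (Mul (fun s => Ev (box n) {0} (bnd n) (Function.update η v s)))
      unfold AV Gf MM
      simp only [add_mul, Finset.sum_add_distrib, mul_assoc, ← Finset.mul_sum]
      linarith) e0
  have h2 : (List.map (fun _ : V => (1:ℝ)) (LL n)).prod = 1 := by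
    simp
  rw [h2, one_mul] at h1
  exact h1

end Pool.Agent.R975.BN
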