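import Pool.Agent.R975.BN.Star

/-!
# The 3-neighbour graph on the square lattice percolates (helper975): one star
-/

set_option autoImplicit false

namespace Pool.Agent.R975.BN

open Finset H974

/-- `1 / √2` -/
noncomputable def sg : ℝ := Real.sqrt (1 / 2)

theorem sg_sq : sg * sg = 1 / 2 := Real.mul_self_sqrt (by norm_num)

theorem sg_lo : 0.7 ≤ sg := by
  unfold sg
  apply Real.le_sqrt_of_sq_le
  norm_num

theorem sg_hi : sg ≤ 0.71 := by
  unfold sg
  rw [Real.sqrt_le_left (by norm_num)]
  norm_num

/-- independent half edges -/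
noncomputable def muI (s : St) : ℝ := (∏ _d ∈ s, sg) * ∏ _d ∈ univ \ s, (1 - sg)

/-- exactly one half edge is omitted -/
noncomputable def muO (s : St) : ℝ := ∑ d : Fin 4, if s = univ.erase d then 1 / 4 else 0

theorem sum_muI (f : St → ℝ) : ∑ s, muI s * f s = Ex (fun _ => sg) (univ : Finset (Fin 4)) f := by
  unfold Ex muI
  rw [Finset.powerset_univ]

theorem sum_muO (f : St → ℝ) : ∑ s, muO s * f s = (1 / 4) * ∑ d : Fin 4, f (univ.erase d) := by
  unfold muO
  simp only [Finset.sum_mul]
  rw [Finset.sum_comm, Finset.mul_sum]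
  apply Finset.sum_congr rfl
  intro d _
  rw [Finset.sum_eq_single (univ.erase d)]
  · simp
  · intro s _ hs
    rw [if_neg hs, zero_mul]
  · intro h
    exact absurd (Finset.mem_univ _) h

theorem muI_nonneg (s : St) : 0 ≤ muI s := by
  unfold muI
  have h1 := sg_lo
  have h2 := sg_hi
  apply mul_nonneg
  · exact Finset.prod_nonneg (fun _ _ => by linarith)
  · exact Finset.prod_nonneg (fun _ _ => by linarith)

theorem muI_lo (s : St) : (1 / 4 : ℝ) ^ 4 ≤ muI s := by
  unfold muI
  have h1 := sg_lo
  have h2 := sg_hi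
  rw [Finset.prod_const, Finset.prod_const]
  have h3 : (1 / 4 : ℝ) ^ s.card ≤ sg ^ s.card := pow_le_pow_left₀ (by norm_num) (by linarith) _
  have h4 : (1 / 4 : ℝ) ^ (univ \ s).card ≤ (1 - sg) ^ (univ \ s).card :=
    pow_le_pow_left₀ (by norm_num) (by linarith) _
  have h5 : s.card + (univ \ s).card = 4 := by
    have := Finset.card_sdiff_add_card_eq_card (Finset.subset_univ s)
    rw [Finset.card_univ, Fintype.card_fin] at this
    omega
  calc (1 / 4 : ℝ) ^ 4 = (1 / 4 : ℝ) ^ s.card * (1 / 4 : ℝ) ^ (univ \ s).card := by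
        rw [← pow_add, h5]
    _ ≤ _ := mul_le_mul h3 h4 (by positivity) (by positivity)

theorem muO_nonneg (s : St) : 0 ≤ muO s := by
  unfold muO
  apply Finset.sum_nonneg
  intro d _
  split_ifs <;> norm_num

theorem muI_one : ∑ s, muI s = 1 := by
  have h := sum_muI (fun _ => 1)
  simp only [mul_one] at h
  rw [h, Ex_const]

theorem muO_one : ∑ s, muO s = 1 := by
  have h := sum_muO (fun _ => 1)
  simp only [mul_one] at h
  rw [h]
  simp

/-- the mixture -/
noncomputable def MM (t : ℝ) (s : St) : ℝ := (1 - t) * muI s + t * muO s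

theorem MM_nonneg {t : ℝ} (h0 : 0 ≤ t) (h1 : t ≤ 1) (s : St) : 0 ≤ MM t s := by
  unfold MM
  exact add_nonneg (mul_nonneg (by linarith) (muI_nonneg s)) (mul_nonneg h0 (muO_nonneg s))

theorem MM_one (t : ℝ) : ∑ s, MM t s = 1 := by
  unfold MM
  rw [Finset.sum_add_distrib, ← Finset.mul_sum, ← Finset.mul_sum, muI_one, muO_one]
  ring

theorem MM_lo {t : ℝ} (h0 : 0 ≤ t) (h1 : t ≤ 1 / 2) (s : St) : (1 / 512 : ℝ) ≤ MM t s := by
  unfold MM
  have h2 := muI_lo s
  have h3 := muO_nonneg s
  have h4 : (1 / 4 : ℝ) ^ 4 = 1 / 256 := by norm_num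
  rw [h4] at h2
  nlinarith [mul_nonneg h0 h3]

theorem MM_deriv (t : ℝ) (s : St) : HasDerivAt (fun t => MM t s) (muO s - muI s) t := by
  unfold MM
  have h1 : HasDerivAt (fun t : ℝ => (1 - t) * muI s) (-1 * muI s) t := by
    have h := ((hasDerivAt_id t).const_sub 1).mul_const (muI s)
    simpa using h
  have h2 : HasDerivAt (fun t : ℝ => t * muO s) (1 * muO s) t :=
    (hasDerivAt_id t).mul_const (muO s)
  have h3 := h1.add h2
  have e : -1 * muI s + 1 * muO s = muO s - muI s := by ring
  rw [e] at h3
  exact h3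

/-- increasing and generated by sets with at most two elements -/
structure Two (g : St → Prop) : Prop where
  mono : ∀ s t, s ⊆ t → g s → g t
  gen : ∀ s, g s → ∃ t, t ⊆ s ∧ t.card ≤ 2 ∧ g t

/-- upper bound for independent half edges -/
theorem PI_le (g : St → Prop) (K : St) (hK : ∀ s, g s → K ⊆ s) :
    ∑ s, muI s * ind (g s) ≤ sg ^ K.card := by
  have h1 := sg_lo
  have h2 := sg_hi
  have e1 : ∑ s : St, (∏ _d ∈ s, sg) * ∏ d ∈ univ \ s, (if d ∈ K then (0:ℝ) else 1 - sg)
      = ∏ d : Fin 4, (sg + if d ∈ K then (0:ℝ) else 1 - sg) := by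
    rw [Finset.prod_add, Finset.powerset_univ]
  have e2 : ∏ d : Fin 4, (sg + if d ∈ K then (0:ℝ) else 1 - sg) = sg ^ K.card := by
    have e3 : ∀ d : Fin 4, (sg + if d ∈ K then (0:ℝ) else 1 - sg) = if d ∈ K then sg else 1 := by
      intro d
      split_ifs <;> ring
    rw [Finset.prod_congr rfl (fun d _ => e3 d), Finset.prod_ite_mem, Finset.univ_inter,
      Finset.prod_const]
  rw [← e2, ← e1]
  apply Finset.sum_le_sum
  intro s _
  by_cases hg : g s
  · rw [ind_of hg, mul_one]
    unfold muI
    apply le_of_eq
    congr 1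
    apply Finset.prod_congr rfl
    intro d hd
    rw [if_neg]
    intro hdK
    exact (Finset.mem_sdiff.1 hd).2 (hK s hg hdK)
  · rw [ind_not_of hg, mul_zero]
    apply mul_nonneg
    · exact Finset.prod_nonneg (fun _ _ => by linarith)
    · apply Finset.prod_nonneg
      intro d _
      split_ifs <;> linarith

theorem PI_le_of_empty (g : St → Prop) (h : ¬ g ∅) :
    ∑ s, muI s * ind (g s) ≤ 1 - 1 / 256 := by
  have h1 := muI_lo ∅
  have h4 : (1 / 4 : ℝ) ^ 4 = 1 / 256 := by norm_num
  rw [h4] at h1
  have h2 : ∑ s, muI s * ind (g s) ≤ ∑ s, (muI s - if s = ∅ then 1 / 256 else 0) := by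
    apply Finset.sum_le_sum
    intro s _
    by_cases hs : s = ∅
    · subst hs
      rw [ind_not_of h, if_pos rfl]
      linarith
    · rw [if_neg hs, sub_zero]
      exact mul_le_of_le_one_right (muI_nonneg s) (ind_le_one _)
  rw [Finset.sum_sub_distrib, muI_one] at h2
  simpa using h2

/-- a vertex at which omitting one half edge is strictly better -/
def Mul (g : St → Prop) : Prop := ¬ g ∅ ∧ ∃ d0, ∀ d, d ≠ d0 → g (univ.erase d)

theorem one_star {g : St → Prop} (h : Two g) :
    ∑ s, muI s * ind (g s) + (1 / 256) * ind (Mul g) ≤ ∑ s, muO s * ind (g s) := by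
  classical
  rw [sum_muO]
  set K : St := univ.filter (fun d => ¬ g (univ.erase d)) with hK
  have hKs : ∀ s, g s → K ⊆ s := by
    intro s hs d hd
    by_contra hds
    rw [hK, Finset.mem_filter] at hd
    apply hd.2
    apply h.mono s _ _ hs
    intro x hx
    rw [Finset.mem_erase]
    exact ⟨fun hxd => hds (hxd ▸ hx), Finset.mem_univ x⟩
  have hsum : ∑ d : Fin 4, ind (g (univ.erase d)) = 4 - (K.card : ℝ) := by
    have h1 : ∀ d : Fin 4, ind (g (univ.erase d)) = 1 - if d ∈ K then (1:ℝ) else 0 := by
      intro d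
      by_cases hd : g (univ.erase d)
      · rw [ind_of hd, if_neg, sub_zero]
        rw [hK, Finset.mem_filter]
        rintro ⟨-, h2⟩
        exact h2 hd
      · rw [ind_not_of hd, if_pos, sub_self]
        rw [hK, Finset.mem_filter]
        exact ⟨Finset.mem_univ _, hd⟩
    rw [Finset.sum_congr rfl (fun d _ => h1 d), Finset.sum_sub_distrib]
    simp
  rw [hsum]
  have h1 := sg_lo
  have h2 := sg_hi
  have h3 := sg_sq
  have hPI := PI_le g K hKs
  have hmul0 := ind_nonneg (Mul g)
  have hmul1 := ind_le_one (Mul g)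
  have hcases : K.card = 0 ∨ K.card = 1 ∨ K.card = 2 ∨ 3 ≤ K.card := by omega
  rcases hcases with hc | hc | hc | hc
  · rw [hc]
    by_cases hm : Mul g
    · rw [ind_of hm]
      have := PI_le_of_empty g hm.1
      norm_num
      linarith
    · rw [ind_not_of hm]
      rw [hc, pow_zero] at hPI
      norm_num
      linarith
  · rw [hc] at hPI ⊢
    rw [pow_one] at hPI
    norm_num
    norm_num at h2
    linarith
  · have hm : ¬ Mul g := by
      rintro ⟨-, d0, hd0⟩
      have : K ⊆ {d0} := by
        intro d hd
        rw [hK, Finset.mem_filter] at hd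
        rw [Finset.mem_singleton]
        by_contra hne
        exact hd.2 (hd0 d hne)
      have := Finset.card_le_card this
      rw [Finset.card_singleton] at this
      omega
    rw [ind_not_of hm, hc]
    rw [hc, pow_two, h3] at hPI
    norm_num
    linarith
  · have hno : ∀ s, ¬ g s := by
      intro s hs
      obtain ⟨t, -, h5, h6⟩ := h.gen s hs
      have := Finset.card_le_card (hKs t h6)
      omega
    have hm : ¬ Mul g := by
      rintro ⟨-, d0, hd0⟩
      exact hno _ (hd0 (d0 + 1) (by simp))
    have hK4 : K.card ≤ 4 := by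
      have := Finset.card_le_univ K
      simpa using this
    have hK4' : (K.card : ℝ) ≤ 4 := by exact_mod_cast hK4
    rw [ind_not_of hm]
    have : ∑ s, muI s * ind (g s) = 0 := by
      apply Finset.sum_eq_zero
      intro s _
      rw [ind_not_of (hno s), mul_zero]
    rw [this]
    linarith

/-- the comparison, when the half edges of `O` are conditioned to be closed and are irrelevant -/
theorem one_star_cond {g : St → Prop} (h : Two g) (O : St) (hO : ∀ s, g s ↔ g (s \ O)) {t : ℝ}
    (h0 : 0 ≤ t) (h1 : t ≤ 1) :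
    (∑ s, MM t s * ind (Disjoint s O)) * ∑ s, muI s * ind (g s)
      ≤ ∑ s, MM t s * ind (Disjoint s O) * ind (g s) := by
  classical
  have hI : (∑ s, muI s * ind (Disjoint s O)) * ∑ s, muI s * ind (g s)
      ≤ ∑ s, muI s * (ind (Disjoint s O) * ind (g s)) := by
    rw [sum_muI (fun s => ind (Disjoint s O)), sum_muI (fun s => ind (g s)),
      sum_muI (fun s => ind (Disjoint s O) * ind (g s))]
    apply le_of_eq
    symm
    apply Ex_mul_indep (U := univ) (S := O) (T := univ \ O) (Finset.subset_univ _)
      (Finset.subset_univ _) Finset.disjoint_sdiff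
    · intro F _
      apply ind_congr
      rw [Finset.disjoint_left, Finset.disjoint_left]
      constructor
      · intro h2 a ha
        exact h2 (Finset.mem_inter.1 ha).1
      · intro h2 a ha haO
        exact h2 (Finset.mem_inter.2 ⟨ha, haO⟩) haO
    · intro F _
      apply ind_congr
      rw [hO F, hO (F ∩ (univ \ O))]
      have h12 : ((F ∩ (univ \ O)) \ O) = (F \ O) := by
        ext x
        simp
      rw [h12]
  have hOO : (∑ s, muO s * ind (Disjoint s O)) * ∑ s, muI s * ind (g s)
      ≤ ∑ s, muO s * (ind (Disjoint s O) * ind (g s)) := by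
    by_cases hOe : O = ∅
    · subst hOe
      have h2 : ∀ s : St, ind (Disjoint s ∅) = 1 := fun s => ind_of (Finset.disjoint_empty_right s)
      simp only [h2, mul_one, one_mul]
      rw [muO_one, one_mul]
      have h3 := one_star h
      have h4 := ind_nonneg (Mul g)
      linarith
    · rw [sum_muO, sum_muO]
      have hPI1 : ∑ s, muI s * ind (g s) ≤ ind (g univ) := by
        by_cases hu : g univ
        · rw [ind_of hu]
          have h5 := PI_le g ∅ (fun s _ => Finset.empty_subset s)
          simpa using h5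
        · have hno : ∀ s, ¬ g s := fun s hs => hu (h.mono s univ (Finset.subset_univ s) hs)
          rw [ind_not_of hu]
          apply le_of_eq
          apply Finset.sum_eq_zero
          intro s _
          rw [ind_not_of (hno s), mul_zero]
      have h6 : ∀ d : Fin 4, ind (Disjoint (univ.erase d) O) * ind (g (univ.erase d))
          = ind (Disjoint (univ.erase d) O) * ind (g univ) := by
        intro d
        by_cases hd : Disjoint (univ.erase d) O
        · rw [ind_of hd, one_mul, one_mul]
          apply ind_congr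
          rw [hO univ, hO (univ.erase d)]
          have h7 : univ.erase d \ O = univ \ O := by
            ext x
            simp only [Finset.mem_sdiff, Finset.mem_erase, Finset.mem_univ, and_true, true_and]
            constructor
            · rintro ⟨-, h8⟩; exact h8
            · intro h8
              refine ⟨?_, h8⟩
              rintro rfl
              apply hOe
              rw [Finset.eq_empty_iff_forall_notMem]
              intro y hy
              by_cases hyx : y = x
              · exact h8 (hyx ▸ hy)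
              · exact (Finset.disjoint_left.1 hd) (Finset.mem_erase.2 ⟨hyx, Finset.mem_univ y⟩) hy
          rw [h7]
        · rw [ind_not_of hd, zero_mul, zero_mul]
      rw [Finset.sum_congr rfl (fun d _ => h6 d), ← Finset.sum_mul]
      have h9 : 0 ≤ ∑ d : Fin 4, ind (Disjoint (univ.erase d) O) :=
        Finset.sum_nonneg (fun d _ => ind_nonneg _)
      calc 1 / 4 * (∑ d : Fin 4, ind (Disjoint (univ.erase d) O)) * ∑ s, muI s * ind (g s)
          ≤ 1 / 4 * (∑ d : Fin 4, ind (Disjoint (univ.erase d) O)) * ind (g univ) :=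
            mul_le_mul_of_nonneg_left hPI1 (by positivity)
        _ = _ := by ring
  have e1 : ∑ s, MM t s * ind (Disjoint s O) = (1 - t) * ∑ s, muI s * ind (Disjoint s O)
      + t * ∑ s, muO s * ind (Disjoint s O) := by
    unfold MM
    rw [Finset.mul_sum, Finset.mul_sum, ← Finset.sum_add_distrib]
    apply Finset.sum_congr rfl
    intro s _
    ring
  have e2 : ∑ s, MM t s * ind (Disjoint s O) * ind (g s)
      = (1 - t) * ∑ s, muI s * (ind (Disjoint s O) * ind (g s))
      + t * ∑ s, muO s * (ind (Disjoint s O) * ind (g s)) := by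
    unfold MM
    rw [Finset.mul_sum, Finset.mul_sum, ← Finset.sum_add_distrib]
    apply Finset.sum_congr rfl
    intro s _
    ring
  rw [e1, e2, add_mul]
  have h10 := mul_le_mul_of_nonneg_left hI (show 0 ≤ 1 - t by linarith)
  have h11 := mul_le_mul_of_nonneg_left hOO h0
  linarith

end Pool.Agent.R975.BN
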