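import Pool.Agent.H974R2.Basic

/-!
# The 3-neighbour graph on the square lattice percolates (helper975): product measures on stars

A configuration gives to every vertex a set of directions (a star).  `EL m L f` is the expectation
of `f` when the stars at the vertices of the list `L` are resampled independently, the star at `v`
with the weights `m v`.
-/

set_option autoImplicit false

namespace Pool.Agent.R975.BN

open Finset H974

abbrev V := ℤ × ℤ
abbrev St := Finset (Fin 4)
abbrev Cfg := V → St

/-- averaging over the star at `v` with the weights `m` -/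
noncomputable def AV (m : St → ℝ) (v : V) (f : Cfg → ℝ) : Cfg → ℝ :=
  fun η => ∑ s, m s * f (Function.update η v s)

/-- averaging over the stars at the vertices of a list -/
noncomputable def EL (m : V → St → ℝ) : List V → (Cfg → ℝ) → Cfg → ℝ
  | [], f => f
  | v :: L, f => AV (m v) v (EL m L f)

variable {m : V → St → ℝ}

theorem AV_mono_at {w : St → ℝ} (hw : ∀ s, 0 ≤ w s) {v : V} {f g : Cfg → ℝ} {η : Cfg}
    (h : ∀ s, f (Function.update η v s) ≤ g (Function.update η v s)) :
    AV w v f η ≤ AV w v g η :=
  Finset.sum_le_sum (fun s _ => mul_le_mul_of_nonneg_left (h s) (hw s))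

theorem EL_mono_off (hm : ∀ v s, 0 ≤ m v s) {f g : Cfg → ℝ} (L : List V) :
    ∀ η : Cfg, (∀ η' : Cfg, (∀ w, w ∉ L → η' w = η w) → f η' ≤ g η') →
      EL m L f η ≤ EL m L g η := by
  induction L with
  | nil => intro η h; exact h η (fun _ _ => rfl)
  | cons v L ih =>
    intro η h
    apply AV_mono_at (hm v)
    intro s
    apply ih
    intro η' h'
    apply h
    intro w hw
    rw [List.mem_cons, not_or] at hw
    rw [h' w hw.2, Function.update_of_ne hw.1]

theorem EL_mono (hm : ∀ v s, 0 ≤ m v s) {f g : Cfg → ℝ} (h : ∀ η, f η ≤ g η) (L : List V)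
    (η : Cfg) : EL m L f η ≤ EL m L g η :=
  EL_mono_off hm L η (fun η' _ => h η')

theorem EL_congr_off {f g : Cfg → ℝ} (L : List V) :
    ∀ η : Cfg, (∀ η' : Cfg, (∀ w, w ∉ L → η' w = η w) → f η' = g η') →
      EL m L f η = EL m L g η := by
  induction L with
  | nil => intro η h; exact h η (fun _ _ => rfl)
  | cons v L ih =>
    intro η h
    show ∑ s, m v s * EL m L f (Function.update η v s) = ∑ s, m v s * EL m L g (Function.update η v s)
    apply Finset.sum_congr rfl
    intro s _
    rw [ih]
    intro η' h'
    apply h
    intro w hw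
    rw [List.mem_cons, not_or] at hw
    rw [h' w hw.2, Function.update_of_ne hw.1]

theorem EL_add (f g : Cfg → ℝ) (L : List V) : ∀ η : Cfg,
    EL m L (fun η => f η + g η) η = EL m L f η + EL m L g η := by
  induction L with
  | nil => intro η; rfl
  | cons v L ih =>
    intro η
    show ∑ s, m v s * EL m L _ (Function.update η v s) = ∑ s, m v s * EL m L f (Function.update η v s)
      + ∑ s, m v s * EL m L g (Function.update η v s)
    rw [← Finset.sum_add_distrib]
    apply Finset.sum_congr rfl
    intro s _
    rw [ih]
    ring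

theorem EL_mul (c : ℝ) (f : Cfg → ℝ) (L : List V) : ∀ η : Cfg,
    EL m L (fun η => c * f η) η = c * EL m L f η := by
  induction L with
  | nil => intro η; rfl
  | cons v L ih =>
    intro η
    show ∑ s, m v s * EL m L _ (Function.update η v s) = c * ∑ s, m v s * EL m L f (Function.update η v s)
    rw [Finset.mul_sum]
    apply Finset.sum_congr rfl
    intro s _
    rw [ih]
    ring

theorem EL_sum {ι : Type*} (I : Finset ι) (f : ι → Cfg → ℝ) (L : List V) : ∀ η : Cfg,
    EL m L (fun η => ∑ i ∈ I, f i η) η = ∑ i ∈ I, EL m L (f i) η := by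
  classical
  induction I using Finset.induction_on with
  | empty =>
    intro η
    simp only [Finset.sum_empty]
    have h := EL_mul (m := m) 0 (fun _ => 0) L η
    simpa using h
  | insert a I ha ih =>
    intro η
    simp only [Finset.sum_insert ha]
    rw [EL_add, ih]

theorem EL_const (hp : ∀ v, ∑ s, m v s = 1) (c : ℝ) (L : List V) : ∀ η : Cfg,
    EL m L (fun _ => c) η = c := by
  induction L with
  | nil => intro η; rfl
  | cons v L ih =>
    intro η
    show ∑ s, m v s * EL m L (fun _ => c) (Function.update η v s) = c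
    simp only [ih]
    rw [← Finset.sum_mul, hp, one_mul]

theorem EL_upd {v : V} (s : St) (f : Cfg → ℝ) (L : List V) : v ∉ L → ∀ η : Cfg,
    EL m L (fun η => f (Function.update η v s)) η = EL m L f (Function.update η v s) := by
  induction L with
  | nil => intro _ η; rfl
  | cons w L ih =>
    intro hv η
    rw [List.mem_cons, not_or] at hv
    show ∑ s', m w s' * EL m L _ (Function.update η w s')
      = ∑ s', m w s' * EL m L f (Function.update (Function.update η v s) w s')
    apply Finset.sum_congr rfl
    intro s' _
    rw [ih hv.2, Function.update_comm hv.1]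

theorem EL_AV {v : V} (w : St → ℝ) (f : Cfg → ℝ) (L : List V) (hv : v ∉ L) (η : Cfg) :
    EL m L (AV w v f) η = AV w v (EL m L f) η := by
  unfold AV
  rw [EL_sum]
  apply Finset.sum_congr rfl
  intro s _
  rw [EL_mul, EL_upd s f L hv]

theorem AV_AV (w w' : St → ℝ) (hw : ∑ s, w s = 1) (v : V) (f : Cfg → ℝ) (η : Cfg) :
    AV w v (AV w' v f) η = AV w' v f η := by
  unfold AV
  simp only [Function.update_idem]
  rw [← Finset.sum_mul, hw, one_mul]

theorem EL_tower (hp : ∀ v, ∑ s, m v s = 1) {v : V} (f : Cfg → ℝ) (L : List V) :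
    L.Nodup → v ∈ L → ∀ η : Cfg, EL m L (AV (m v) v f) η = EL m L f η := by
  induction L with
  | nil => intro _ hv; simp at hv
  | cons w L ih =>
    intro hL hv η
    rw [List.nodup_cons] at hL
    by_cases hvw : v = w
    · subst hvw
      show AV (m v) v (EL m L (AV (m v) v f)) η = AV (m v) v (EL m L f) η
      have h1 : EL m L (AV (m v) v f) = AV (m v) v (EL m L f) :=
        funext (fun η => EL_AV (m v) f L hL.1 η)
      rw [h1, AV_AV _ _ (hp v)]
    · have hv' : v ∈ L := by
        rcases List.mem_cons.1 hv with h | h
        · exact absurd h hvw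
        · exact h
      show AV (m w) w (EL m L (AV (m v) v f)) η = AV (m w) w (EL m L f) η
      have h1 : EL m L (AV (m v) v f) = EL m L f := funext (fun η => ih hL.2 hv' η)
      rw [h1]

theorem EL_tower_list (hp : ∀ v, ∑ s, m v s = 1) (f : Cfg → ℝ) (L : List V) (hL : L.Nodup)
    (W : List V) : (∀ v ∈ W, v ∈ L) → ∀ η : Cfg, EL m L (EL m W f) η = EL m L f η := by
  induction W with
  | nil => intro _ η; rfl
  | cons v W ih =>
    intro h η
    show EL m L (AV (m v) v (EL m W f)) η = _
    rw [EL_tower hp (EL m W f) L hL (h v List.mem_cons_self),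
      ih (fun u hu => h u (List.mem_cons_of_mem _ hu))]

theorem AV_comm {v w : V} (hvw : v ≠ w) (a b : St → ℝ) (f : Cfg → ℝ) (η : Cfg) :
    AV a v (AV b w f) η = AV b w (AV a v f) η := by
  unfold AV
  simp only [Finset.mul_sum]
  rw [Finset.sum_comm]
  apply Finset.sum_congr rfl
  intro s _
  apply Finset.sum_congr rfl
  intro s' _
  rw [Function.update_comm hvw]
  ring

theorem EL_perm {L L' : List V} (h : L.Perm L') (f : Cfg → ℝ) : EL m L f = EL m L' f := by
  induction h with
  | nil => rfl
  | cons x _ ih => show AV (m x) x _ = AV (m x) x _; rw [ih]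
  | swap x y l =>
    show AV (m y) y (AV (m x) x _) = AV (m x) x (AV (m y) y _)
    by_cases hxy : y = x
    · rw [hxy]
    · exact funext (fun η => AV_comm hxy _ _ _ η)
  | trans _ _ ih1 ih2 => rw [ih1, ih2]

theorem EL_append (L L' : List V) (f : Cfg → ℝ) : EL m (L ++ L') f = EL m L (EL m L' f) := by
  induction L with
  | nil => rfl
  | cons v L ih =>
    show AV (m v) v (EL m (L ++ L') f) = AV (m v) v (EL m L (EL m L' f))
    rw [ih]

/-- lower bound by one configuration -/
theorem EL_ge (hm : ∀ v s, 0 ≤ m v s) {c : ℝ} (hc : 0 ≤ c) (hcm : ∀ v s, c ≤ m v s)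
    {f : Cfg → ℝ} (hf : ∀ η, 0 ≤ f η) (W : List V) : ∀ η η' : Cfg,
    (∀ w, w ∉ W → η' w = η w) → c ^ W.length * f η' ≤ EL m W f η := by
  induction W with
  | nil =>
    intro η η' h
    have : η' = η := funext (fun w => h w (by simp))
    rw [this]
    simp [EL]
  | cons v W ih =>
    intro η η' h
    have h0 : ∀ η, 0 ≤ EL m W f η := by
      intro η
      have := EL_mono (m := m) hm (f := fun _ => 0) (g := f) hf W η
      have h2 := EL_mul (m := m) 0 (fun _ => 0) W η
      simp only [zero_mul, mul_zero] at h2
      rw [h2] at this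
      exact this
    have h1 : m v (η' v) * EL m W f (Function.update η v (η' v)) ≤ EL m (v :: W) f η := by
      show _ ≤ ∑ s, m v s * EL m W f (Function.update η v s)
      exact Finset.single_le_sum (f := fun s => m v s * EL m W f (Function.update η v s))
        (fun s _ => mul_nonneg (hm v s) (h0 _)) (Finset.mem_univ (η' v))
    have h2 := ih (Function.update η v (η' v)) η' (by
      intro w hw
      by_cases hwv : w = v
      · rw [hwv, Function.update_self]
      · rw [Function.update_of_ne hwv]
        apply h
        rw [List.mem_cons, not_or]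
        exact ⟨hwv, hw⟩)
    calc c ^ (v :: W).length * f η' = c * (c ^ W.length * f η') := by
          rw [List.length_cons, pow_succ]; ring
      _ ≤ m v (η' v) * (c ^ W.length * f η') :=
          mul_le_mul_of_nonneg_right (hcm _ _) (mul_nonneg (pow_nonneg hc _) (hf _))
      _ ≤ m v (η' v) * EL m W f (Function.update η v (η' v)) :=
          mul_le_mul_of_nonneg_left h2 (hm _ _)
      _ ≤ _ := h1

/-- star by star comparison -/
theorem EL_compare {r μ : V → St → ℝ} {κ : V → ℝ} (hκ : ∀ v, 0 ≤ κ v) (hr : ∀ v s, 0 ≤ r v s)
    (hμ : ∀ v s, 0 ≤ μ v s) {f : Cfg → ℝ} (L : List V) : L.Nodup →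
    (∀ v ∈ L, ∀ η, κ v * AV (μ v) v f η ≤ AV (r v) v f η) →
    ∀ η, (L.map κ).prod * EL μ L f η ≤ EL r L f η := by
  induction L with
  | nil => intro _ _ η; simp [EL]
  | cons v L ih =>
    intro hL h η
    rw [List.nodup_cons] at hL
    have ih' := ih hL.2 (fun w hw => h w (List.mem_cons_of_mem _ hw))
    have hP : 0 ≤ (L.map κ).prod := by
      apply List.prod_nonneg
      intro a ha
      obtain ⟨w, -, rfl⟩ := List.mem_map.1 ha
      exact hκ w
    have e1 : EL r (v :: L) f η = AV (r v) v (EL r L f) η := rfl
    have e2 : AV (r v) v (fun η => (L.map κ).prod * EL μ L f η) η ≤ AV (r v) v (EL r L f) η :=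
      AV_mono_at (hr v) (fun s => ih' _)
    have e3 : AV (r v) v (fun η => (L.map κ).prod * EL μ L f η) η
        = (L.map κ).prod * EL μ L (AV (r v) v f) η := by
      rw [EL_AV _ _ _ hL.1]
      unfold AV
      rw [Finset.mul_sum]
      apply Finset.sum_congr rfl
      intro s _
      ring
    have e4 : EL μ L (fun η => κ v * AV (μ v) v f η) η ≤ EL μ L (AV (r v) v f) η :=
      EL_mono hμ (fun η => h v List.mem_cons_self η) L η
    rw [EL_mul, EL_AV _ _ _ hL.1] at e4
    rw [List.map_cons, List.prod_cons, e1]
    calc κ v * (L.map κ).prod * EL μ (v :: L) f η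
        = (L.map κ).prod * (κ v * AV (μ v) v (EL μ L f) η) := by
          show κ v * (L.map κ).prod * AV (μ v) v (EL μ L f) η = _
          ring
      _ ≤ (L.map κ).prod * EL μ L (AV (r v) v f) η := mul_le_mul_of_nonneg_left e4 hP
      _ ≤ _ := by rw [← e3]; exact e2

/-- a product of functions of the single stars can be put in the weights -/
theorem EL_weight (k : V → St → ℝ) (f : Cfg → ℝ) (L : List V) : L.Nodup → ∀ η : Cfg,
    EL m L (fun η => (L.map (fun v => k v (η v))).prod * f η) η
      = EL (fun v s => m v s * k v s) L f η := by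
  induction L with
  | nil => intro _ η; simp [EL]
  | cons v L ih =>
    intro hL η
    rw [List.nodup_cons] at hL
    show ∑ s, m v s * EL m L _ (Function.update η v s)
      = ∑ s, m v s * k v s * EL (fun v s => m v s * k v s) L f (Function.update η v s)
    apply Finset.sum_congr rfl
    intro s _
    have h1 : EL m L (fun η => ((v :: L).map (fun v => k v (η v))).prod * f η)
        (Function.update η v s) = EL m L (fun η => k v s * ((L.map (fun v => k v (η v))).prod * f η))
        (Function.update η v s) := by
      apply EL_congr_off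
      intro η' h'
      have h2 : η' v = s := by rw [h' v hL.1, Function.update_self]
      rw [List.map_cons, List.prod_cons, h2]
      ring
    rw [h1, EL_mul, ih hL.2]
    ring

theorem sum_mul_list {ι : Type*} (L : List ι) (F : ι → St → ℝ) (w : St → ℝ) :
    ∑ s, w s * (L.map (fun i => F i s)).sum = (L.map (fun i => ∑ s, w s * F i s)).sum := by
  induction L with
  | nil => simp
  | cons i L ih =>
    simp only [List.map_cons, List.sum_cons, mul_add, Finset.sum_add_distrib, ih]

/-- derivative formula for a family of laws -/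
theorem EL_deriv {M : ℝ → St → ℝ} {δ : St → ℝ} (hM : ∀ t s, HasDerivAt (fun t => M t s) (δ s) t)
    (hp : ∀ t, ∑ s, M t s = 1) (f : Cfg → ℝ) (t : ℝ) (L : List V) : L.Nodup → ∀ η : Cfg,
    HasDerivAt (fun t => EL (fun _ => M t) L f η)
      ((L.map (fun v => EL (fun _ => M t) L (AV δ v f) η)).sum) t := by
  induction L with
  | nil =>
    intro _ η
    simp only [EL, List.map_nil, List.sum_nil]
    exact hasDerivAt_const t (f η)
  | cons v L ih =>
    intro hL η
    rw [List.nodup_cons] at hL
    have h1 : HasDerivAt (fun t => ∑ s, M t s * EL (fun _ => M t) L f (Function.update η v s))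
        (∑ s, (δ s * EL (fun _ => M t) L f (Function.update η v s) + M t s *
          (L.map (fun w => EL (fun _ => M t) L (AV δ w f) (Function.update η v s))).sum)) t := by
      apply HasDerivAt.fun_sum
      intro s _
      exact (hM t s).mul (ih hL.2 (Function.update η v s))
    have h2 : (∑ s, (δ s * EL (fun _ => M t) L f (Function.update η v s) + M t s *
          (L.map (fun w => EL (fun _ => M t) L (AV δ w f) (Function.update η v s))).sum))
        = (((v :: L).map (fun w => EL (fun _ => M t) (v :: L) (AV δ w f) η)).sum) := by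
      rw [Finset.sum_add_distrib, List.map_cons, List.sum_cons]
      congr 1
      · show AV δ v (EL (fun _ => M t) L f) η = AV (M t) v (EL (fun _ => M t) L (AV δ v f)) η
        have h3 : EL (fun _ => M t) L (AV δ v f) = AV δ v (EL (fun _ => M t) L f) :=
          funext (fun η => EL_AV δ f L hL.1 η)
        rw [h3, AV_AV _ _ (hp t)]
      · rw [sum_mul_list]
        rfl
    rw [← h2]
    exact h1

end Pool.Agent.R975.BN
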