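import Pool.Agent.R975.BN.Conn

/-!
# The 3-neighbour graph on the square lattice percolates (helper975): local surgery

Next to an edge from the cluster of the origin to the cluster of the boundary one can change three
stars so that a vertex becomes pivotal in the strong sense `Mul`.
-/

set_option autoImplicit false

namespace Pool.Agent.R975.BN

open Finset H974

/-- the modified configuration -/
def ext3 (η : Cfg) (y x' y' : V) (Y X' Y' : St) : Cfg := fun w =>
  η w ∪ (if w = y then Y else if w = x' then X' else if w = y' then Y' else ∅)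

theorem ext3_sub (η : Cfg) (y x' y' : V) (Y X' Y' : St) (w : V) :
    η w ⊆ ext3 η y x' y' Y X' Y' w := Finset.subset_union_left

theorem isolated {ζ : Cfg} {T : Set V} {v b : V} (hv : ζ v = ∅) (h : Cn ζ T v b) : b = v := by
  rcases Relation.ReflTransGen.cases_head h with h1 | ⟨w, ⟨-, -, d, -, h2, -⟩, -⟩
  · exact h1.symm
  · rw [hv] at h2
    simp at h2

/-- directions at a corner -/
theorem dir_facts (d e : Fin 4) (he : e = d + 1 ∨ e = d + 3) :
    e ≠ d ∧ e ≠ d + 2 ∧ stp d + stp e ≠ 0 ∧ (∀ f, stp d + stp e ≠ stp f) ∧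
      (|(stp d + stp e).1| ≤ 1 ∧ |(stp d + stp e).2| ≤ 1) := by
  revert d e
  decide

theorem inner_step2 {n : ℕ} {v : V} (hv : v ∈ box n) (hb : v ∉ bnd n) {d e : Fin 4}
    (he : e = d + 1 ∨ e = d + 3) : v + stp d + stp e ∈ box n := by
  obtain ⟨-, -, -, -, h3, h4⟩ := dir_facts d e he
  have h2 : ¬ (v.1 = n ∨ v.1 = -n ∨ v.2 = n ∨ v.2 = -n) := fun h => hb ⟨hv, h⟩
  rw [add_assoc]
  rw [mem_box] at hv ⊢
  rw [Prod.fst_add, Prod.snd_add]
  have h5 := abs_le.1 h3
  have h6 := abs_le.1 h4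
  omega

section

variable {n : ℕ} {η : Cfg} {x y x' y' : V} {d e d1 : Fin 4}

/-- extra half edges, one side -/
theorem one_side (hy : y = x + stp d) (hx' : x' = x + stp e) (hy' : y' = x + stp d + stp e)
    {Y X' Y' : St} (hY : Y ⊆ {d + 2, e}) (hX' : X' ⊆ {e + 2, d}) (hY' : Y' ⊆ {d + 2, e + 2})
    {a c : V} {f : Fin 4} (hc : c = a + stp f) (hcx : c ≠ x)
    (hf : f ∈ (if a = y then Y else if a = x' then X' else if a = y' then Y' else ∅)) :
    (a = x' ∧ c = y' ∧ d ∈ X') ∨ (a = y' ∧ c = x' ∧ d + 2 ∈ Y') ∨ (a = y ∧ c = y' ∧ e ∈ Y) ∨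
      (a = y' ∧ c = y ∧ e + 2 ∈ Y') := by
  by_cases h1 : a = y
  · rw [if_pos h1] at hf
    have h2 := hY hf
    rw [Finset.mem_insert, Finset.mem_singleton] at h2
    rcases h2 with h2 | h2
    · exfalso
      apply hcx
      rw [hc, h1, hy, h2, back]
    · right; right; left
      refine ⟨h1, ?_, h2 ▸ hf⟩
      rw [hc, h1, hy, h2, hy']
  · rw [if_neg h1] at hf
    by_cases h2 : a = x'
    · rw [if_pos h2] at hf
      have h3 := hX' hf
      rw [Finset.mem_insert, Finset.mem_singleton] at h3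
      rcases h3 with h3 | h3
      · exfalso
        apply hcx
        rw [hc, h2, hx', h3, back]
      · left
        refine ⟨h2, ?_, h3 ▸ hf⟩
        rw [hc, h2, hx', h3, hy']
        abel
    · rw [if_neg h2] at hf
      by_cases h3 : a = y'
      · rw [if_pos h3] at hf
        have h4 := hY' hf
        rw [Finset.mem_insert, Finset.mem_singleton] at h4
        rcases h4 with h4 | h4
        · right; left
          refine ⟨h3, ?_, h4 ▸ hf⟩
          rw [hc, h3, hy', h4, hx', stp_opp]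
          abel
        · right; right; right
          refine ⟨h3, ?_, h4 ▸ hf⟩
          rw [hc, h3, hy', h4, hy, back]
      · rw [if_neg h3] at hf
        simp at hf

/-- the new open edges off `x` -/
theorem new_edge (hy : y = x + stp d) (hx' : x' = x + stp e) (hy' : y' = x + stp d + stp e)
    {Y X' Y' : St} (hY : Y ⊆ {d + 2, e}) (hX' : X' ⊆ {e + 2, d}) (hY' : Y' ⊆ {d + 2, e + 2})
    {a c : V} (ha : a ≠ x) (hc : c ≠ x) (h : SAdj (ext3 η y x' y' Y X' Y') a c) :
    SAdj η a c ∨
      (((a = x' ∧ c = y') ∨ (a = y' ∧ c = x')) ∧ (d ∈ X' ∨ d + 2 ∈ Y')) ∨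
      (((a = y ∧ c = y') ∨ (a = y' ∧ c = y)) ∧ (e ∈ Y ∨ e + 2 ∈ Y')) := by
  obtain ⟨f, h1, h2, h3⟩ := h
  unfold ext3 at h2 h3
  rw [Finset.mem_union] at h2 h3
  rcases h2 with h2 | h2
  · rcases h3 with h3 | h3
    · exact Or.inl ⟨f, h1, h2, h3⟩
    · have h4 : a = c + stp (f + 2) := by rw [h1, back]
      rcases one_side hy hx' hy' hY hX' hY' h4 ha h3 with h | h | h | h
      · exact Or.inr (Or.inl ⟨Or.inr ⟨h.2.1, h.1⟩, Or.inl h.2.2⟩)
      · exact Or.inr (Or.inl ⟨Or.inl ⟨h.2.1, h.1⟩, Or.inr h.2.2⟩)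
      · exact Or.inr (Or.inr ⟨Or.inr ⟨h.2.1, h.1⟩, Or.inl h.2.2⟩)
      · exact Or.inr (Or.inr ⟨Or.inl ⟨h.2.1, h.1⟩, Or.inr h.2.2⟩)
  · rcases one_side hy hx' hy' hY hX' hY' h1 hc h2 with h | h | h | h
    · exact Or.inr (Or.inl ⟨Or.inl ⟨h.1, h.2.1⟩, Or.inl h.2.2⟩)
    · exact Or.inr (Or.inl ⟨Or.inr ⟨h.1, h.2.1⟩, Or.inr h.2.2⟩)
    · exact Or.inr (Or.inr ⟨Or.inl ⟨h.1, h.2.1⟩, Or.inl h.2.2⟩)
    · exact Or.inr (Or.inr ⟨Or.inr ⟨h.1, h.2.1⟩, Or.inr h.2.2⟩)

/-- a set which is closed under the open edges off `x` -/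
theorem not_ev_of_closed {ζ : Cfg} {P : Set V} (h0 : (0:V) ∈ P) (hx : ζ x = ∅)
    (hP : ∀ b ∈ bnd n, b ∉ P)
    (hcl : ∀ a c, a ∈ P → a ∈ box n → c ∈ box n → a ≠ x → c ≠ x → SAdj ζ a c → c ∈ P) :
    ¬ Ev (box n) {0} (bnd n) ζ := by
  rintro ⟨a, ha, b, hb, h⟩
  rw [Set.mem_singleton_iff] at ha
  subst ha
  apply hP b hb
  clear hb
  induction h with
  | refl => exact h0
  | @tail a c _ h2 ih =>
    apply hcl a c ih h2.1 h2.2.1 _ _ h2.2.2
    · rintro rfl
      obtain ⟨f, -, h3, -⟩ := h2.2.2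
      rw [hx] at h3
      simp at h3
    · rintro rfl
      obtain ⟨f, -, -, h3⟩ := h2.2.2
      rw [hx] at h3
      simp at h3

theorem sadj_upd {ζ : Cfg} {a c : V} (ha : a ≠ x) (hc : c ≠ x) {s : St}
    (h : SAdj (Function.update ζ x s) a c) : SAdj ζ a c := by
  obtain ⟨f, h1, h2, h3⟩ := h
  rw [Function.update_of_ne ha] at h2
  rw [Function.update_of_ne hc] at h3
  exact ⟨f, h1, h2, h3⟩

/-- paths off `x` survive -/
theorem lift_off {η' : Cfg} (hsub : ∀ w, η w ⊆ η' w) {T : Set V} (hT : T ⊆ ↑(box n))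
    {s : St} {a b : V} (h : Cn η (T \ {x}) a b) : Cn (Function.update η' x s) (box n) a b := by
  apply h.map
  rintro a c ha hc ⟨f, h1, h2, h3⟩
  have ha' : a ≠ x := ha.2
  have hc' : c ≠ x := hc.2
  refine ⟨hT ha.1, hT hc.1, f, h1, ?_, ?_⟩
  · rw [Function.update_of_ne ha']; exact hsub _ h2
  · rw [Function.update_of_ne hc']; exact hsub _ h3

end

theorem surgery {n : ℕ} {η : Cfg} {x : V} {d : Fin 4} (hn : 1 ≤ n)
    (h0 : (0:V) ∈ SS n η) (hx : x ∈ SS n η) (hyS : x + stp d ∉ SS n η)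
    (hc : Cn η (SS n η) 0 x) :
    ∃ e : Fin 4, (e = d + 1 ∨ e = d + 3) ∧ ∃ η' : Cfg,
      (∀ w, w ∉ [x + stp d, x + stp e, x + stp d + stp e] → η' w = η w) ∧
      Mul (fun s => Ev (box n) {0} (bnd n) (Function.update η' x s)) := by
  classical
  have hSbox : (↑(SS n η) : Set V) ⊆ ↑(box n) := by
    intro v hv
    rw [Finset.mem_coe, mem_SS] at hv
    exact hv.1
  have hxb : x ∉ bnd n := SS_not_bnd hx
  have hxbox : x ∈ box n := (mem_SS.1 hx).1
  have h0box : (0:V) ∈ box n := (mem_SS.1 h0).1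
  have hybox : x + stp d ∈ box n := inner_step hxbox hxb d
  obtain ⟨b0, hb0, hyb0⟩ : ∃ b ∈ bnd n, Cn η (box n) (x + stp d) b := by
    by_contra hcon
    exact hyS (mem_SS.2 ⟨hybox, hcon⟩)
  have hxy : x + stp d ≠ x := by
    intro h
    apply stp_ne d
    have : x + stp d = x + 0 := by rw [add_zero]; exact h
    exact add_left_cancel this
  -- the path from `y` avoids `x`
  have hoff : Cn η (↑(box n) \ {x}) (x + stp d) b0 := by
    rcases hyb0.first x with h1 | h1 | ⟨u, h1, h2, h3, h4, h5⟩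
    · exact h1
    · exact absurd h1 hxy
    · exfalso
      apply (mem_SS.1 hx).2
      refine ⟨b0, hb0, ?_⟩
      have h6 : Cn η (box n) (x + stp d) x :=
        Cn.trans (h1.mono (fun _ => subset_rfl) Set.sdiff_subset) (Cn.step h2 h3 h5)
      exact h6.symm.trans hyb0
  by_cases hx0 : x = 0
  · -- the origin itself
    refine ⟨d + 1, Or.inl rfl, ext3 η (x + stp d) (x + stp d) (x + stp d) {d + 2} ∅ ∅, ?_, ?_, ?_⟩
    · intro w hw
      have hw1 : w ≠ x + stp d := fun h => hw (by simp [h])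
      unfold ext3
      simp [hw1]
    · simp only
      apply not_ev_of_closed (x := x) (P := {x})
      · rw [hx0]; rfl
      · rw [Function.update_self]
      · intro b hb hbx
        rw [Set.mem_singleton_iff] at hbx
        exact hxb (hbx ▸ hb)
      · intro a c ha _ _ hax _ _
        exact absurd ha hax
    · refine ⟨d, fun d' hd' => ?_⟩
      simp only
      refine ⟨0, rfl, b0, hb0, ?_⟩
      have h1 : Cn (Function.update (ext3 η (x + stp d) (x + stp d) (x + stp d) {d + 2} ∅ ∅) x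
          (univ.erase d')) (box n) x (x + stp d) := by
        apply Cn.step hxbox hybox
        refine ⟨d, rfl, ?_, ?_⟩
        · rw [Function.update_self]
          exact Finset.mem_erase.2 ⟨fun h => hd' h.symm, Finset.mem_univ _⟩
        · rw [Function.update_of_ne hxy]
          unfold ext3
          simp
      have h2 := lift_off (n := n) (x := x) (s := univ.erase d')
        (ext3_sub η (x + stp d) (x + stp d) (x + stp d) {d + 2} ∅ ∅) subset_rfl hoff
      rw [← hx0]
      rw [hx0] at h1 h2 ⊢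
      exact h1.trans h2
  -- the last step towards `x`
  obtain ⟨u, hu1, hu2, hu3, hu4⟩ : ∃ u, Cn η (↑(SS n η) \ {x}) 0 u ∧ u ∈ SS n η ∧ u ≠ x ∧
      SAdj η u x := by
    rcases hc.first x with h1 | h1 | ⟨u, h1, h2, h3, h4, h5⟩
    · exfalso
      rcases Relation.ReflTransGen.cases_tail h1 with h3 | ⟨w, -, h3⟩
      · exact hx0 h3
      · exact h3.2.1.2 rfl
    · exact absurd h1.symm hx0
    · exact ⟨u, h1, h2, h4, h5⟩
  obtain ⟨f, hf1, hf2, hf3⟩ := hu4
  obtain ⟨d1, hd1⟩ : ∃ d1 : Fin 4, d1 + 2 = f := ⟨f + 2, opp_opp f⟩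
  have hu : u = x + stp d1 := by
    rw [hf1, ← hd1, stp_opp]
    abel
  have hd1f : d1 + 2 ∈ η u := by rw [hd1]; exact hf2
  have hdd1 : d1 ≠ d := by
    rintro rfl
    exact hyS (hu ▸ hu2)
  obtain ⟨e, he, hed1⟩ : ∃ e : Fin 4, (e = d + 1 ∨ e = d + 3) ∧ e ≠ d1 := by
    by_cases h : d1 = d + 1
    · refine ⟨d + 3, Or.inr rfl, ?_⟩
      rw [h]
      have key : ∀ z : Fin 4, z + 3 ≠ z + 1 := by decide
      exact key d
    · exact ⟨d + 1, Or.inl rfl, fun h' => h h'.symm⟩
  obtain ⟨he1, he2, he3, he4, -⟩ := dir_facts d e he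
  set y : V := x + stp d with hy
  set x' : V := x + stp e with hx'
  set y' : V := x + stp d + stp e with hy'
  have hx'box : x' ∈ box n := inner_step hxbox hxb e
  have hy'box : y' ∈ box n := inner_step2 hxbox hxb he
  have hx'x : x' ≠ x := by
    intro h
    apply stp_ne e
    have : x + stp e = x + 0 := by rw [add_zero]; exact h
    exact add_left_cancel this
  have hy'x : y' ≠ x := by
    intro h
    apply he3
    have : x + (stp d + stp e) = x + 0 := by rw [add_zero, ← add_assoc]; exact h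
    exact add_left_cancel this
  have hx'y : x' ≠ y := by
    intro h
    exact he1 (stp_inj (add_left_cancel h))
  have hy'y : y' ≠ y := by
    intro h
    apply stp_ne e
    have : x + stp d + stp e = x + stp d + 0 := by rw [add_zero]; exact h
    exact add_left_cancel this
  have hy'x' : y' ≠ x' := by
    intro h
    apply stp_ne d
    have : x + stp e + stp d = x + stp e + 0 := by
      rw [add_zero, add_right_comm]; exact h
    exact add_left_cancel this
  have huy : u ≠ y := by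
    rw [hu]
    intro h
    exact hdd1 (stp_inj (add_left_cancel h))
  -- the clusters off `x`
  set A : Set V := {w | Cn η (↑(box n) \ {x}) 0 w} with hA
  have hAB : ∀ w ∈ A, ¬ ∃ b ∈ bnd n, Cn η (↑(box n) \ {x}) w b := by
    rintro w hw ⟨b, hb, hwb⟩
    exact (mem_SS.1 h0).2 ⟨b, hb, (Cn.trans hw hwb).mono (fun _ => subset_rfl) Set.sdiff_subset⟩
  have hAcl : ∀ a c, a ∈ A → a ∈ box n → c ∈ box n → a ≠ x → c ≠ x → SAdj η a c → c ∈ A :=
    fun a c ha hab hcb hax hcx h => Relation.ReflTransGen.tail ha ⟨⟨hab, hax⟩, ⟨hcb, hcx⟩, h⟩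
  have h0A : (0:V) ∈ A := Cn.refl _ _ _
  have hAbnd : ∀ b ∈ bnd n, b ∉ A := fun b hb hbA => hAB b hbA ⟨b, hb, Cn.refl _ _ _⟩
  have hyA : y ∉ A := fun h => hAB y h ⟨b0, hb0, hoff⟩
  -- common part: the connection `0 - u - x` and `x - y - b0`
  have hcommon : ∀ (X' Y' Y : St) (s : St), d + 2 ∈ Y → d1 ∈ s →
      Cn (Function.update (ext3 η y x' y' Y X' Y') x s) (box n) 0 x := by
    intro X' Y' Y s _ hs
    have h1 := lift_off (n := n) (x := x) (s := s) (ext3_sub η y x' y' Y X' Y')
      hSbox hu1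
    refine h1.trans (Cn.step (hSbox hu2) hxbox ⟨d1 + 2, ?_, ?_, ?_⟩)
    · rw [hu, back]
    · rw [Function.update_of_ne hu3]
      exact ext3_sub η y x' y' Y X' Y' u hd1f
    · rw [Function.update_self, opp_opp]
      exact hs
  have hcommon2 : ∀ (X' Y' Y : St) (s : St), d + 2 ∈ Y → d ∈ s →
      Cn (Function.update (ext3 η y x' y' Y X' Y') x s) (box n) x b0 := by
    intro X' Y' Y s hYd hs
    have h1 := lift_off (n := n) (x := x) (s := s) (ext3_sub η y x' y' Y X' Y')
      subset_rfl hoff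
    refine Cn.trans (Cn.step hxbox hybox ⟨d, rfl, ?_, ?_⟩) h1
    · rw [Function.update_self]; exact hs
    · rw [Function.update_of_ne hxy]
      unfold ext3
      rw [if_pos rfl]
      exact Finset.mem_union_right _ hYd
  -- the edge between `x` and `x'`
  have hedge : ∀ (X' Y' Y : St) (s : St), e + 2 ∈ X' → e ∈ s →
      Cn (Function.update (ext3 η y x' y' Y X' Y') x s) (box n) x x' := by
    intro X' Y' Y s hX hs
    refine Cn.step hxbox hx'box ⟨e, rfl, ?_, ?_⟩
    · rw [Function.update_self]; exact hs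
    · rw [Function.update_of_ne hx'x]
      unfold ext3
      rw [if_neg hx'y, if_pos rfl]
      exact Finset.mem_union_right _ hX
  have hagree : ∀ (X' Y' Y : St) (w : V), w ∉ [y, x', y'] → ext3 η y x' y' Y X' Y' w = η w := by
    intro X' Y' Y w hw
    simp only [List.mem_cons, List.not_mem_nil, or_false, not_or] at hw
    unfold ext3
    rw [if_neg hw.1, if_neg hw.2.1, if_neg hw.2.2, Finset.union_empty]
  -- type X at `e`
  have mulX : ∀ (X' Y' Y : St), d + 2 ∈ Y → e + 2 ∈ X' →
      ¬ Ev (box n) {0} (bnd n) (Function.update (ext3 η y x' y' Y X' Y') x ∅) →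
      (∀ s, Cn (Function.update (ext3 η y x' y' Y X' Y') x s) (box n) 0 x') →
      Mul (fun s => Ev (box n) {0} (bnd n) (Function.update (ext3 η y x' y' Y X' Y') x s)) := by
    intro X' Y' Y hYd hXe hne hcon
    refine ⟨hne, d, fun d' hd' => ?_⟩
    refine ⟨0, rfl, b0, hb0, ?_⟩
    have hds : d ∈ (univ : St).erase d' := Finset.mem_erase.2 ⟨fun h => hd' h.symm, Finset.mem_univ _⟩
    refine Cn.trans ?_ (hcommon2 X' Y' Y _ hYd hds)
    by_cases hd'1 : d' = d1
    · have hes : e ∈ (univ : St).erase d' :=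
        Finset.mem_erase.2 ⟨fun h => hed1 (h.trans hd'1), Finset.mem_univ _⟩
      exact (hcon _).trans (hedge X' Y' Y _ hXe hes).symm
    · exact hcommon X' Y' Y _ hYd (Finset.mem_erase.2 ⟨fun h => hd'1 h.symm, Finset.mem_univ _⟩)
  -- type Y at `e`
  have mulY : ∀ (X' Y' Y : St), d + 2 ∈ Y → e + 2 ∈ X' →
      ¬ Ev (box n) {0} (bnd n) (Function.update (ext3 η y x' y' Y X' Y') x ∅) →
      (∃ b ∈ bnd n, ∀ s, Cn (Function.update (ext3 η y x' y' Y X' Y') x s) (box n) x' b) →
      Mul (fun s => Ev (box n) {0} (bnd n) (Function.update (ext3 η y x' y' Y X' Y') x s)) := by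
    rintro X' Y' Y hYd hXe hne ⟨b, hb, hcon⟩
    refine ⟨hne, d1, fun d' hd' => ?_⟩
    have hd1s : d1 ∈ (univ : St).erase d' :=
      Finset.mem_erase.2 ⟨fun h => hd' h.symm, Finset.mem_univ _⟩
    have h1 := hcommon X' Y' Y _ hYd hd1s
    by_cases hd'1 : d' = d
    · have hes : e ∈ (univ : St).erase d' :=
        Finset.mem_erase.2 ⟨fun h => he1 (h.trans hd'1), Finset.mem_univ _⟩
      exact ⟨0, rfl, b, hb, h1.trans ((hedge X' Y' Y _ hXe hes).trans (hcon _))⟩
    · exact ⟨0, rfl, b0, hb0, h1.trans (hcommon2 X' Y' Y _ hYd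
        (Finset.mem_erase.2 ⟨fun h => hd'1 h.symm, Finset.mem_univ _⟩))⟩
  refine ⟨e, he, ?_⟩
  -- no new edges off `x`
  have hX1 : ∀ a c, a ≠ x → c ≠ x → SAdj (ext3 η y x' y' {d + 2} {e + 2} ∅) a c → SAdj η a c := by
    intro a c ha hc' h
    have hed : d ≠ e + 2 := by
      intro h
      apply he2
      rw [h, opp_opp]
    rcases new_edge hy hx' hy' (by intro z hz; rw [Finset.mem_singleton] at hz; simp [hz])
      (by intro z hz; rw [Finset.mem_singleton] at hz; simp [hz]) (Finset.empty_subset _) ha hc' h with h | ⟨-, h | h⟩ | ⟨-, h | h⟩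
    · exact h
    · rw [Finset.mem_singleton] at h; exact absurd h hed
    · simp at h
    · rw [Finset.mem_singleton] at h; exact absurd h he2
    · simp at h
  have hne1 : ¬ Ev (box n) {0} (bnd n)
      (Function.update (ext3 η y x' y' {d + 2} {e + 2} ∅) x ∅) := by
    apply not_ev_of_closed (x := x) (P := A) h0A (Function.update_self _ _ _) hAbnd
    intro a c ha hab hcb hax hcx h
    exact hAcl a c ha hab hcb hax hcx (hX1 a c hax hcx (sadj_upd hax hcx h))
  by_cases c1 : x' ∈ A
  · refine ⟨_, hagree {e + 2} ∅ {d + 2}, mulX _ _ _ (by simp) (by simp) hne1 ?_⟩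
    intro s
    exact lift_off (n := n) (x := x) (s := s) (ext3_sub η y x' y' _ _ _)
      subset_rfl c1
  by_cases c2 : ∃ b ∈ bnd n, Cn η (↑(box n) \ {x}) x' b
  · obtain ⟨b, hb, hxb'⟩ := c2
    refine ⟨_, hagree {e + 2} ∅ {d + 2}, mulY _ _ _ (by simp) (by simp) hne1 ⟨b, hb, ?_⟩⟩
    intro s
    exact lift_off (n := n) (x := x) (s := s) (ext3_sub η y x' y' _ _ _)
      subset_rfl hxb'
  by_cases c3 : y' ∈ A
  · -- join `x'` to `y'`
    have hX2 : ∀ a c, a ≠ x → c ≠ x → SAdj (ext3 η y x' y' {d + 2} {e + 2, d} {d + 2}) a c →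
        SAdj η a c ∨ (a = x' ∧ c = y') ∨ (a = y' ∧ c = x') := by
      intro a c ha hc' h
      rcases new_edge hy hx' hy' (by intro z hz; rw [Finset.mem_singleton] at hz; simp [hz])
        subset_rfl (by intro z hz; rw [Finset.mem_singleton] at hz; simp [hz]) ha hc' h with h | ⟨h, -⟩ | ⟨-, h | h⟩
      · exact Or.inl h
      · exact Or.inr h
      · rw [Finset.mem_singleton] at h; exact absurd h he2
      · rw [Finset.mem_singleton] at h
        exact absurd (add_right_cancel h) he1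
    refine ⟨_, hagree {e + 2, d} {d + 2} {d + 2}, mulX _ _ _ (by simp) (by simp) ?_ ?_⟩
    · apply not_ev_of_closed (x := x) (P := A ∪ {w | Cn η (↑(box n) \ {x}) x' w}) (Or.inl h0A)
        (Function.update_self _ _ _)
      · rintro b hb (h | h)
        · exact hAbnd b hb h
        · exact c2 ⟨b, hb, h⟩
      · intro a c ha hab hcb hax hcx h
        rcases hX2 a c hax hcx (sadj_upd hax hcx h) with h | ⟨-, h⟩ | ⟨-, h⟩
        · rcases ha with ha | ha
          · exact Or.inl (hAcl a c ha hab hcb hax hcx h)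
          · exact Or.inr (Relation.ReflTransGen.tail ha ⟨⟨hab, hax⟩, ⟨hcb, hcx⟩, h⟩)
        · exact Or.inl (h ▸ c3)
        · exact Or.inr (h ▸ Cn.refl _ _ _)
    · intro s
      have h1 : Cn (Function.update (ext3 η y x' y' {d + 2} {e + 2, d} {d + 2}) x s) (box n) 0 y' :=
        lift_off (n := n) (x := x) (s := s) (ext3_sub η y x' y' _ _ _)
          subset_rfl c3
      refine h1.trans (Cn.step hy'box hx'box ⟨d + 2, ?_, ?_, ?_⟩)
      · rw [hx', hy', stp_opp]
        abel
      · rw [Function.update_of_ne hy'x]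
        unfold ext3
        rw [if_neg hy'y, if_neg hy'x', if_pos rfl]
        exact Finset.mem_union_right _ (by simp)
      · rw [Function.update_of_ne hx'x, opp_opp]
        unfold ext3
        rw [if_neg hx'y, if_pos rfl]
        exact Finset.mem_union_right _ (by simp)
  · -- join `x'`, `y'`, `y`
    refine ⟨_, hagree {e + 2, d} {d + 2, e + 2} {d + 2, e}, mulY _ _ _ (by simp) (by simp) ?_
      ⟨b0, hb0, ?_⟩⟩
    · apply not_ev_of_closed (x := x) (P := A) h0A (Function.update_self _ _ _) hAbnd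
      intro a c ha hab hcb hax hcx h
      rcases new_edge hy hx' hy' subset_rfl subset_rfl subset_rfl hax hcx (sadj_upd hax hcx h)
        with h | ⟨⟨h, -⟩ | ⟨h, -⟩, -⟩ | ⟨⟨h, -⟩ | ⟨h, -⟩, -⟩
      · exact hAcl a c ha hab hcb hax hcx h
      · exact absurd (h ▸ ha) c1
      · exact absurd (h ▸ ha) c3
      · exact absurd (h ▸ ha) hyA
      · exact absurd (h ▸ ha) c3
    · intro s
      have h1 : Cn (Function.update (ext3 η y x' y' {d + 2, e} {e + 2, d} {d + 2, e + 2}) x s)
          (box n) y b0 :=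
        lift_off (n := n) (x := x) (s := s) (ext3_sub η y x' y' _ _ _)
          subset_rfl hoff
      have h2 : Cn (Function.update (ext3 η y x' y' {d + 2, e} {e + 2, d} {d + 2, e + 2}) x s)
          (box n) y' y := by
        refine Cn.step hy'box hybox ⟨e + 2, ?_, ?_, ?_⟩
        · rw [hy', back]
        · rw [Function.update_of_ne hy'x]
          unfold ext3
          rw [if_neg hy'y, if_neg hy'x', if_pos rfl]
          exact Finset.mem_union_right _ (by simp)
        · rw [Function.update_of_ne hxy, opp_opp]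
          unfold ext3
          rw [if_pos rfl]
          exact Finset.mem_union_right _ (by simp)
      have h3 : Cn (Function.update (ext3 η y x' y' {d + 2, e} {e + 2, d} {d + 2, e + 2}) x s)
          (box n) x' y' := by
        refine Cn.step hx'box hy'box ⟨d, ?_, ?_, ?_⟩
        · rw [hx', hy']
          abel
        · rw [Function.update_of_ne hx'x]
          unfold ext3
          rw [if_neg hx'y, if_pos rfl]
          exact Finset.mem_union_right _ (by simp)
        · rw [Function.update_of_ne hy'x]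
          unfold ext3
          rw [if_neg hy'y, if_neg hy'x', if_pos rfl]
          exact Finset.mem_union_right _ (by simp)
      exact h3.trans (h2.trans h1)

end Pool.Agent.R975.BN
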